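import Pool.Agent.V7H30.TP.Gap

/-!
# Translations
-/

set_option autoImplicit false

namespace Pool.Agent.V7H30.TP

open Finset Equiv

variable {K Pt F : Type} {L : K → Pt → F}

/-- The map `τ` preserves parallelism. -/
def Dil (L : K → Pt → F) (τ : Pt → Pt) : Prop :=
  ∀ P y y', L P y = L P y' → L P (τ y) = L P (τ y')

/-- The translations that preserve the lines of the class `Z` are transitive on them. -/
def TransOn (L : K → Pt → F) (Z : K) : Prop :=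
  ∀ x x', L Z x = L Z x' → ∃ τ : Pt → Pt, τ x = x' ∧ (∀ y, L Z (τ y) = L Z y) ∧ Dil L τ

variable (h : OA L)

include h

theorem transOn_of_good [Finite F] {Z P₀ : K} (hP₀ : P₀ ≠ Z) (hG : Good h Z) :
    TransOn L Z := by
  obtain ⟨a, H, hH, hD⟩ := hG
  set P : Oth Z := ⟨P₀, hP₀⟩ with hP
  have hfin : Finite (On L Z a) := Finite.of_equiv F (lam h P a).symm
  intro x x' hxx
  set u : On L Z (L Z x) := ⟨x, rfl⟩ with hu
  set u' : On L Z (L Z x) := ⟨x', hxx.symm⟩ with hu'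
  obtain ⟨e, he, hex⟩ := hH.centralizer.2 ((pr h P a (L Z x)).symm u) ((pr h P a (L Z x)).symm u')
  have hex' : ∀ y, ∃ y', L Z y' = L Z y ∧ L P₀ y' = act h P e (L P₀ y) := fun y =>
    h.exists hP₀.symm _ _
  choose τ hτ1 hτ2 using hex'
  have hτ3 : ∀ (Q : Oth Z) y, L Q.1 (τ y) = act h Q e (L Q.1 y) := by
    intro Q y
    obtain ⟨y', w1, w2, w3⟩ := exists_move h (hD (L Z y) P Q) he (x := y) rfl
    have h1 : τ y = y' := h.ext hP₀.symm ((hτ1 y).trans w1.symm) ((hτ2 y).trans w2.symm)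
    rw [h1, w3]
  refine ⟨τ, ?_, hτ1, ?_⟩
  · refine h.ext hP₀.symm ?_ ?_
    · rw [hτ1, hxx]
    · have h1 := pr_spec h P a (L Z x) ((pr h P a (L Z x)).symm u)
      have h2 := pr_spec h P a (L Z x) ((pr h P a (L Z x)).symm u')
      rw [Equiv.apply_symm_apply] at h1 h2
      have h3 := act_lam h P e ((pr h P a (L Z x)).symm u)
      rw [← h1, hex, ← h2] at h3
      rw [hτ2]
      exact h3
  · intro Q y y' hyy
    by_cases hQ : Q = Z
    · rw [hQ] at hyy ⊢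
      rw [hτ1, hτ1, hyy]
    · have h1 := hτ3 ⟨Q, hQ⟩ y
      have h2 := hτ3 ⟨Q, hQ⟩ y'
      simp only at h1 h2
      rw [h1, h2, hyy]

/-- A translation with a fixed point is the identity. -/
theorem eq_self_of_fix (hJ : ∀ x y, ∃ k, L k x = L k y) {Z P₀ : K} (hP₀ : P₀ ≠ Z) {τ : Pt → Pt}
    (hF : ∀ a : F, ∃ b : F, b ≠ a) (hτ : ∀ y, L Z (τ y) = L Z y) (hD : Dil L τ) {w : Pt}
    (hw : τ w = w) (y : Pt) : τ y = y := by
  have key : ∀ w, τ w = w → ∀ y, L Z y ≠ L Z w → τ y = y := by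
    intro w hw y hy
    obtain ⟨c, hc⟩ := hJ w y
    have hcZ : c ≠ Z := by
      rintro rfl
      exact hy hc.symm
    refine h.ext hcZ ?_ (hτ y)
    rw [← hD c w y hc, hw, hc]
  by_cases hy : L Z y = L Z w
  · obtain ⟨b, hb⟩ := hF (L Z w)
    obtain ⟨v, hv, _⟩ := h.exists hP₀.symm b (L P₀ w)
    have h1 : τ v = v := key w hw v (by rw [hv]; exact hb)
    exact key v h1 y (by rw [hy, hv]; exact hb.symm)
  · exact key w hw y hy

/-- Two centres generate all translations. -/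
theorem transOn_all (hJ : ∀ x y, ∃ k, L k x = L k y) (hF : ∀ a : F, ∃ b : F, b ≠ a) {Z X : K}
    (hZX : Z ≠ X) (hZ : TransOn L Z) (hX : TransOn L X) (Y : K) : TransOn L Y := by
  by_cases hYZ : Y = Z
  · rw [hYZ]
    exact hZ
  by_cases hYX : Y = X
  · rw [hYX]
    exact hX
  intro x x' hxx
  by_cases hx : x = x'
  · subst hx
    exact ⟨id, rfl, fun _ => rfl, fun P y y' hy => hy⟩
  obtain ⟨u, hu1, hu2⟩ := h.exists hZX (L Z x') (L X x)
  obtain ⟨τ₁, a1, a2, a3⟩ := hX x u hu2.symm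
  obtain ⟨τ₂, b1, b2, b3⟩ := hZ u x' hu1
  refine ⟨τ₂ ∘ τ₁, by rw [Function.comp_apply, a1, b1], ?_, fun P y y' hy => b3 P _ _ (a3 P y y' hy)⟩
  intro y
  by_contra hne
  simp only [Function.comp_apply] at hne
  obtain ⟨c, hc⟩ := hJ y (τ₂ (τ₁ y))
  have hcY : c ≠ Y := by
    rintro rfl
    exact hne hc.symm
  obtain ⟨w, hw1, hw2⟩ := h.exists hcY (L c y) (L Y x)
  -- the point `w` is fixed
  have hw : τ₂ (τ₁ w) = w := by
    refine h.ext hcY ?_ ?_
    · have h1 := b3 c _ _ (a3 c w y hw1)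
      rw [h1, ← hc, hw1]
    · have h1 := b3 Y _ _ (a3 Y w x hw2)
      rw [h1, a1, b1, hw2, hxx]
  have h1 : τ₁ w = w := by
    refine h.ext hZX ?_ (a2 w)
    rw [← b2 (τ₁ w), hw]
  have h2 : τ₂ w = w := by
    rw [h1] at hw
    exact hw
  have h3 := eq_self_of_fix h hJ hZX hF a2 a3 h1 x
  have h4 := eq_self_of_fix h hJ hZX.symm hF b2 b3 h2 u
  apply hx
  rw [← h3, a1, ← h4, b1]

/-- With all translations all products are projections. -/
theorem exists_pr_of_transOn (hJ : ∀ x y, ∃ k, L k x = L k y) {Z : K} (hZ : TransOn L Z)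
    {i j k : F} (hik : i ≠ k) (P Q : Oth Z) :
    ∃ R, (pr h P i j).trans (pr h Q j k) = pr h R i k := by
  obtain ⟨x⟩ : Nonempty (On L Z i) := by
    obtain ⟨x, _, hx⟩ := h.exists P.2 i i
    exact ⟨⟨x, hx⟩⟩
  set y := pr h P i j x with hy
  set z := pr h Q j k y with hz
  obtain ⟨R, hR⟩ := hJ x.1 z.1
  have hRZ : R ≠ Z := by
    rintro rfl
    rw [x.2, z.2] at hR
    exact hik hR
  refine ⟨⟨R, hRZ⟩, ?_⟩
  ext1 x'
  obtain ⟨τ, t1, t2, t3⟩ := hZ x.1 x'.1 (by rw [x.2, x'.2])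
  have h1 : pr h P i j x' = ⟨τ y.1, by rw [t2, y.2]⟩ := by
    apply pr_eq
    simp only
    rw [t3 P.1 y.1 x.1 (by rw [hy, pr_spec h]), t1]
  have h2 : pr h Q j k ⟨τ y.1, by rw [t2, y.2]⟩ = ⟨τ z.1, by rw [t2, z.2]⟩ := by
    apply pr_eq
    simp only
    exact t3 Q.1 z.1 y.1 (by rw [hz, pr_spec h])
  rw [Equiv.trans_apply, h1, h2]
  symm
  apply pr_eq
  simp only
  rw [← t1]
  exact t3 R z.1 x.1 hR.symm

end Pool.Agent.V7H30.TP
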