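import Pool.Agent.V7H30.TP.Plane
import Pool.Agent.V7H30.TP.Trans

/-!
# The dichotomy in a projective plane
-/

set_option autoImplicit false

namespace Pool.Agent.V7H30.TP

open Finset Equiv Pool.Agent.N606.ST

variable {V : Type} [Fintype V] [DecidableEq V] {n : ℕ} {B : Finset (Finset V)} {l : Finset V}

variable (hB : Plane n B) (hl : l ∈ B) (hn : 2 ≤ n)

include hB hl hn

theorem join_cls (x y : {x : V // x ∉ l}) : ∃ k, cls hB hl hn k x = cls hB hl hn k y := by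
  by_cases hxy : x = y
  · obtain ⟨Z, hZ⟩ : l.Nonempty := card_pos.1 (by rw [hB.2.1 l hl]; omega)
    exact ⟨⟨Z, hZ⟩, by rw [hxy]⟩
  · have hne : x.1 ≠ y.1 := fun e => hxy (Subtype.ext e)
    obtain ⟨b, h1, h2, h3⟩ := hB.join hne
    obtain ⟨Z, h4, h5⟩ := hB.meet (by omega) h1 hl
    have hb : b ∈ lines B l Z := mem_lines.2 ⟨h1, h4, fun e => x.2 (e ▸ h2)⟩
    refine ⟨⟨Z, h5⟩, ?_⟩
    rw [cls_eq hB hl hn ⟨Z, h5⟩ x ⟨b, hb⟩ h2, cls_eq hB hl hn ⟨Z, h5⟩ y ⟨b, hb⟩ h3]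

omit [DecidableEq V] [Fintype V] hn hB in
theorem col_self {P Z : V} (hP : P ∈ l) (hZ : Z ∈ l) : Col B P Z Z := ⟨l, hl, hP, hZ, hZ⟩

omit [DecidableEq V] hn in
/-- a block through two points of `l` -/
theorem mem_of_col {P Z y : V} (hP : P ∈ l) (hZ : Z ∈ l) (hPZ : P ≠ Z) (hc : Col B P Z y) :
    y ∈ l := by
  obtain ⟨b, h1, h2, h3, h4⟩ := hc
  rw [hB.eq h1 hl hPZ h2 h3 hP hZ] at h4
  exact h4

omit [DecidableEq V] hn in
theorem eq_of_line {Z x : V} {a : Finset V} (ha : Line B l Z a) (hZ : Z ∈ l) (hx : x ∈ a)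
    (hxl : x ∈ l) : x = Z := by
  by_contra hne
  exact ha.2.2 (hB.eq ha.1 hl hne hx ha.2.1 hxl hZ)

omit [DecidableEq V] [Fintype V] hn hl hB in
theorem Col.symm' {P x y : V} (hc : Col B P x y) : Col B P y x := by
  obtain ⟨b, h1, h2, h3, h4⟩ := hc
  exact ⟨b, h1, h2, h4, h3⟩

theorem fail_eq_empty {Z : V} (hZ : Z ∈ l) (hT : TransOn (cls hB hl hn) ⟨Z, hZ⟩) {a b : Finset V}
    (ha : Line B l Z a) (hb : Line B l Z b) : fail B l Z a b = ∅ := by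
  rw [Set.eq_empty_iff_forall_notMem]
  rintro ⟨c, P, Q⟩ ⟨⟨hc, hca, hcb⟩, ⟨hP, hPZ⟩, ⟨hQ, hQZ⟩, hno⟩
  simp only at hc hca hcb hP hPZ hQ hQZ hno
  apply hno
  set i := num hB hl hn hZ ⟨a, mem_lines.2 ha⟩ with hi
  set j := num hB hl hn hZ ⟨b, mem_lines.2 hb⟩ with hj
  set k := num hB hl hn hZ ⟨c, mem_lines.2 hc⟩ with hk
  have hik : i ≠ k := by
    intro e
    exact hca (congrArg Subtype.val ((num hB hl hn hZ).injective e)).symm
  obtain ⟨R, hR⟩ := exists_pr_of_transOn (oa hB hl hn) (join_cls hB hl hn) hT hik (j := j)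
    ⟨⟨P, hP⟩, fun e => hPZ (congrArg Subtype.val e)⟩
    ⟨⟨Q, hQ⟩, fun e => hQZ (congrArg Subtype.val e)⟩
  have hRZ : R.1.1 ≠ Z := fun e => R.2 (Subtype.ext e)
  refine ⟨R.1.1, R.1.2, hRZ, ?_⟩
  intro x hx y hy z hz hxy hyz
  by_cases hxZ : x = Z
  · subst hxZ
    have h1 : y = x := eq_of_line hB hl hb hZ hy (mem_of_col hB hl hP hZ hPZ hxy)
    subst h1
    have h2 : z = y := eq_of_line hB hl hc hZ hz (mem_of_col hB hl hQ hZ hQZ hyz)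
    subst h2
    exact col_self hl R.1.2 hZ
  · have hxl : x ∉ l := fun h1 => hxZ (eq_of_line hB hl ha hZ hx h1)
    have hyl : y ∉ l := by
      intro h1
      have h2 := eq_of_line hB hl hb hZ hy h1
      subst h2
      exact hxl (mem_of_col hB hl hP hZ hPZ (Col.symm' hxy))
    have hzl : z ∉ l := by
      intro h1
      have h2 := eq_of_line hB hl hc hZ hz h1
      subst h2
      exact hyl (mem_of_col hB hl hQ hZ hQZ (Col.symm' hyz))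
    have e1 : cls hB hl hn ⟨Z, hZ⟩ ⟨x, hxl⟩ = i := cls_eq hB hl hn _ _ ⟨a, mem_lines.2 ha⟩ hx
    have e2 : cls hB hl hn ⟨Z, hZ⟩ ⟨y, hyl⟩ = j := cls_eq hB hl hn _ _ ⟨b, mem_lines.2 hb⟩ hy
    have e3 : cls hB hl hn ⟨Z, hZ⟩ ⟨z, hzl⟩ = k := cls_eq hB hl hn _ _ ⟨c, mem_lines.2 hc⟩ hz
    have f1 := (col_iff hB hl hn ⟨P, hP⟩ ⟨x, hxl⟩ ⟨y, hyl⟩).1 hxy
    have f2 := (col_iff hB hl hn ⟨Q, hQ⟩ ⟨y, hyl⟩ ⟨z, hzl⟩).1 hyz
    have g1 : pr (oa hB hl hn) ⟨⟨P, hP⟩, fun e => hPZ (congrArg Subtype.val e)⟩ i j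
        ⟨⟨x, hxl⟩, e1⟩ = ⟨⟨y, hyl⟩, e2⟩ := pr_eq _ _ _ _ _ _ f1.symm
    have g2 : pr (oa hB hl hn) ⟨⟨Q, hQ⟩, fun e => hQZ (congrArg Subtype.val e)⟩ j k
        ⟨⟨y, hyl⟩, e2⟩ = ⟨⟨z, hzl⟩, e3⟩ := pr_eq _ _ _ _ _ _ f2.symm
    have g3 := congrArg (fun f => f (⟨⟨x, hxl⟩, e1⟩ : On (cls hB hl hn) ⟨Z, hZ⟩ i)) hR
    simp only [Equiv.trans_apply] at g3
    rw [g1, g2] at g3
    have g4 := pr_spec (oa hB hl hn) R i k (⟨⟨x, hxl⟩, e1⟩ : On (cls hB hl hn) ⟨Z, hZ⟩ i)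
    rw [← g3] at g4
    exact (col_iff hB hl hn R.1 ⟨x, hxl⟩ ⟨z, hzl⟩).2 g4.symm

theorem transOn_of_few (h6 : 6 ≤ n) {Z : V} (hZ : Z ∈ l) {a b : Finset V}
    (ha : Line B l Z a) (hb : Line B l Z b) (hab : a ≠ b)
    (hT : 7 * (fail B l Z a b).ncard < n * (n - 1)) : TransOn (cls hB hl hn) ⟨Z, hZ⟩ := by
  have hK : Fintype.card {Z : V // Z ∈ l} = n + 1 := by
    rw [Fintype.card_coe, hB.2.1 l hl]
  have h1 := fails_le hB hl hn ⟨Z, hZ⟩ (num hB hl hn hZ ⟨a, mem_lines.2 ha⟩)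
    (num hB hl hn hZ ⟨b, mem_lines.2 hb⟩)
  simp only [Equiv.symm_apply_apply] at h1
  have h2 := good_of_few (oa hB hl hn) (join_cls hB hl hn) h6 (Fintype.card_fin n) hK ⟨Z, hZ⟩
    (a := num hB hl hn hZ ⟨a, mem_lines.2 ha⟩) (b := num hB hl hn hZ ⟨b, mem_lines.2 hb⟩)
    (fun e => hab (congrArg Subtype.val ((num hB hl hn hZ).injective e)).symm) (by omega)
  obtain ⟨P₀, hP₀, hne⟩ : ∃ P ∈ l, P ≠ Z := by
    have h3 : (l.erase Z).Nonempty := by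
      rw [← card_pos, card_erase_of_mem hZ, hB.2.1 l hl]
      omega
    obtain ⟨P, hP⟩ := h3
    exact ⟨P, (mem_erase.1 hP).2, (mem_erase.1 hP).1⟩
  exact transOn_of_good (oa hB hl hn) (P₀ := ⟨P₀, hP₀⟩)
    (fun e => hne (congrArg Subtype.val e)) h2

omit [DecidableEq V] in
/-- **The gap for one centre.** -/
theorem plane_gap (h6 : 6 ≤ n) {Z : V} (hZ : Z ∈ l) {a b : Finset V}
    (ha : Line B l Z a) (hb : Line B l Z b) (hab : a ≠ b)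
    (hT : 7 * (fail B l Z a b).ncard < n * (n - 1)) {a' b' : Finset V} (ha' : Line B l Z a')
    (hb' : Line B l Z b') : fail B l Z a' b' = ∅ := by
  classical
  exact fail_eq_empty hB hl hn hZ (transOn_of_few hB hl hn h6 hZ ha hb hab hT) ha' hb'

omit [DecidableEq V] in
/-- **Two centres.** -/
theorem plane_two (h6 : 6 ≤ n) {Z X : V} (hZ : Z ∈ l) (hX : X ∈ l) (hZX : Z ≠ X)
    {a b c d : Finset V} (ha : Line B l Z a) (hb : Line B l Z b) (hab : a ≠ b)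
    (hT : 7 * (fail B l Z a b).ncard < n * (n - 1)) (hc : Line B l X c) (hd : Line B l X d)
    (hcd : c ≠ d) (hT' : 7 * (fail B l X c d).ncard < n * (n - 1)) {Y : V} (hY : Y ∈ l)
    {a' b' : Finset V} (ha' : Line B l Y a') (hb' : Line B l Y b') : fail B l Y a' b' = ∅ := by
  classical
  have h1 := transOn_of_few hB hl hn h6 hZ ha hb hab hT
  have h2 := transOn_of_few hB hl hn h6 hX hc hd hcd hT'
  refine fail_eq_empty hB hl hn hY ?_ ha' hb'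
  refine transOn_all (oa hB hl hn) (join_cls hB hl hn) ?_
    (fun e => hZX (congrArg Subtype.val e)) h1 h2 ⟨Y, hY⟩
  intro i
  have : Nontrivial (Fin n) := Fin.nontrivial_iff_two_le.2 hn
  exact exists_ne i

end Pool.Agent.V7H30.TP
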