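import Pool.Agent.V7H30.TP.Two

/-!
# One centre: most projections agree up to a regular group
-/

set_option autoImplicit false

namespace Pool.Agent.V7H30.TP

open Finset Equiv

section transfer

variable {A B C ι : Type} [Fintype ι] (t : ι → A ≃ B) (u : ι → B ≃ C) (w : ι → A ≃ C)

open Classical in
/-- the failures at one index of the second family -/
noncomputable def fr (j : ι) : Finset ι := univ.filter fun i => ¬ ∃ k, (t i).trans (u j) = w k

open Classical in
/-- the pairs whose quotient is not in the group -/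
noncomputable def qb (H : Subgroup (Perm A)) : Finset (ι × ι) :=
  univ.filter fun p => (t p.2).trans (t p.1).symm ∉ H

theorem mem_qb {H : Subgroup (Perm A)} {p : ι × ι} :
    p ∈ qb t H ↔ (t p.2).trans (t p.1).symm ∉ H := by
  simp [qb]

theorem sum_fr : ∑ j, (fr t u w j).card = (badP t u w).card := by
  classical
  have h1 : badP t u w = univ.biUnion fun j => (fr t u w j).image fun i => (i, j) := by
    ext ⟨i, j⟩
    simp [badP, fr]
  rw [h1, card_biUnion]
  · refine sum_congr rfl fun i _ => ?_
    rw [card_image_of_injective]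
    intro a b hab
    simpa using hab
  · intro a _ b _ hab
    rw [Function.onFun, Finset.disjoint_left]
    rintro ⟨x, y⟩ h1 h2
    simp only [mem_image, Prod.mk.injEq] at h1 h2
    obtain ⟨_, _, _, h3⟩ := h1
    obtain ⟨_, _, _, h4⟩ := h2
    exact hab (h3.trans h4.symm)

theorem qb_le (ht : Function.Injective t) (H : Subgroup (Perm A)) :
    (qb w H).card ≤ 2 * (badP t u w).card + (qb t H).card := by
  classical
  rcases isEmpty_or_nonempty ι with he | he
  · rw [Finset.eq_empty_of_isEmpty (qb w H)]
    simp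
  have hn : 0 < Fintype.card ι := Fintype.card_pos
  obtain ⟨j, hj⟩ : ∃ j, Fintype.card ι * (fr t u w j).card ≤ (badP t u w).card := by
    have h1 : ∑ j, Fintype.card ι * (fr t u w j).card ≤ ∑ _j : ι, (badP t u w).card := by
      rw [← mul_sum, sum_fr, sum_const, smul_eq_mul, card_univ]
    obtain ⟨j, _, hj⟩ := exists_le_of_sum_le univ_nonempty h1
    exact ⟨j, hj⟩
  have h1 : ∀ i ∈ (fr t u w j)ᶜ, ∃ k, (t i).trans (u j) = w k := by
    intro i hi
    rw [mem_compl, fr, mem_filter] at hi
    push Not at hi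
    exact hi (mem_univ _)
  choose! κ hκ using h1
  have hinj : Set.InjOn κ ((fr t u w j)ᶜ : Finset ι) := by
    intro i hi i' hi' hii
    have h2 := hκ i (by exact_mod_cast hi)
    have h3 := hκ i' (by exact_mod_cast hi')
    rw [hii, ← h3] at h2
    apply ht
    ext x
    have h5 := congrArg (fun e : A ≃ C => (u j).symm (e x)) h2
    simpa using h5
  set R := ((fr t u w j)ᶜ : Finset ι).image κ with hR
  have hRc : R.card = Fintype.card ι - (fr t u w j).card := by
    rw [hR, card_image_of_injOn hinj, card_compl]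
  have hRc' : (Rᶜ : Finset ι).card = (fr t u w j).card := by
    rw [card_compl, hRc]
    have := card_le_univ (fr t u w j)
    omega
  have h2 : qb w H ⊆ ((Rᶜ ×ˢ univ) ∪ (univ ×ˢ Rᶜ)) ∪
      (qb t H).image fun p => (κ p.1, κ p.2) := by
    rintro ⟨k, k'⟩ hk
    rw [qb, mem_filter] at hk
    by_cases hk1 : k ∈ R
    · by_cases hk2 : k' ∈ R
      · refine mem_union_right _ ?_
        rw [hR, mem_image] at hk1 hk2
        obtain ⟨i, hi, rfl⟩ := hk1
        obtain ⟨i', hi', rfl⟩ := hk2
        rw [mem_image]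
        refine ⟨(i, i'), ?_, rfl⟩
        rw [qb, mem_filter]
        refine ⟨mem_univ _, fun h3 => hk.2 ?_⟩
        simp only at h3 ⊢
        rw [← hκ i hi, ← hκ i' hi']
        have h4 : ((t i').trans (u j)).trans ((t i).trans (u j)).symm = (t i').trans (t i).symm := by
          ext x
          simp
        rw [h4]
        exact h3
      · exact mem_union_left _ (mem_union_right _ (mem_product.2 ⟨mem_univ _, mem_compl.2 hk2⟩))
    · exact mem_union_left _ (mem_union_left _ (mem_product.2 ⟨mem_compl.2 hk1, mem_univ _⟩))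
  have h3 := card_le_card h2
  have h4 := card_union_le ((Rᶜ ×ˢ (univ : Finset ι)) ∪ ((univ : Finset ι) ×ˢ Rᶜ))
    ((qb t H).image fun p => (κ p.1, κ p.2))
  have h5 := card_union_le (Rᶜ ×ˢ (univ : Finset ι)) ((univ : Finset ι) ×ˢ Rᶜ)
  have h6 : ((qb t H).image fun p => (κ p.1, κ p.2)).card ≤ (qb t H).card := card_image_le
  rw [card_product, card_product, card_univ, hRc'] at h5
  have h7 : (fr t u w j).card * Fintype.card ι = Fintype.card ι * (fr t u w j).card := by ring
  omega

end transfer

variable {K Pt F : Type} {L : K → Pt → F} (h : OA L) (Z : K) [Fintype K] [Fintype F]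
  [DecidableEq K] [DecidableEq F]

/-- the number of pairs of projections `a → b`, `b → c` whose product is not a projection -/
noncomputable def nf (a b c : F) : ℕ :=
  (badP (fun P : Oth Z => pr h P a b) (fun P => pr h P b c) (fun P => pr h P a c)).card

/-- the number of all failures of products `a → b → c`, `c` a third line -/
noncomputable def fails (a b : F) : ℕ := ∑ c ∈ (univ.erase a).erase b, nf h Z a b c

theorem exists_mul_le {α : Type} {s : Finset α} (hs : s.Nonempty) (f : α → ℕ) {T : ℕ}
    (hT : ∑ x ∈ s, f x ≤ T) : ∃ x ∈ s, s.card * f x ≤ T := by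
  have h1 : ∑ x ∈ s, s.card * f x ≤ ∑ _x ∈ s, T := by
    rw [← mul_sum, sum_const, smul_eq_mul]
    exact Nat.mul_le_mul_left _ hT
  exact exists_le_of_sum_le hs h1

omit [DecidableEq F] in
theorem sum_dis {a : F} (H : Subgroup (Perm (On L Z a))) :
    ∑ p : Oth Z × Oth Z, (dis h H p.1 p.2).card =
      ∑ m, (qb (fun P : Oth Z => pr h P a m) H).card := by
  classical
  have h1 : ∀ p : Oth Z × Oth Z, (dis h H p.1 p.2).card =
      ∑ m : F, if (pr h p.1 a m).trans (pr h p.2 a m).symm ∉ H then 1 else 0 := by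
    intro p
    rw [← card_filter]
    unfold dis
    congr
  have h2 : ∀ m : F, (qb (fun P : Oth Z => pr h P a m) H).card =
      ∑ p : Oth Z × Oth Z, if (pr h p.2 a m).trans (pr h p.1 a m).symm ∉ H then 1 else 0 := by
    intro m
    rw [← card_filter]
    unfold qb
    congr
  rw [sum_congr rfl fun p _ => h1 p, sum_comm, sum_congr rfl fun m _ => h2 m]
  refine sum_congr rfl fun m _ => ?_
  exact Fintype.sum_equiv (Equiv.prodComm _ _) _ _ fun p => rfl

/-- **One centre.** -/
theorem centre {n : ℕ} (hn : 6 ≤ n) (hF : Fintype.card F = n) (hK : Fintype.card K = n + 1)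
    {a b : F} (hab : b ≠ a) (hT : 16 * fails h Z a b ≤ n ^ 2 * (n - 2)) :
    ∃ H : Subgroup (Perm (On L Z a)), Reg H ∧
      ∑ m, (qb (fun P : Oth Z => pr h P a m) H).card ≤ 7 * fails h Z a b := by
  have hι : Fintype.card (Oth Z) = n := by
    rw [Fintype.card_subtype_compl, hK, Fintype.card_subtype_eq]
    rfl
  obtain ⟨P₀⟩ : Nonempty (Oth Z) := Fintype.card_pos_iff.1 (by omega)
  have hb : b ∈ univ.erase a := mem_erase.2 ⟨hab, mem_univ _⟩
  have hca : (univ.erase a).card = n - 1 := by
    rw [card_erase_of_mem (mem_univ _), card_univ, hF]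
  have hcb : ((univ.erase a).erase b).card = n - 2 := by
    rw [card_erase_of_mem hb, hca]
    omega
  obtain ⟨c, hc, hc'⟩ := exists_mul_le (s := (univ.erase a).erase b) (card_pos.1 (by omega))
    (fun c => nf h Z a b c) (T := fails h Z a b) le_rfl
  have hcb' : c ≠ b := (mem_erase.1 hc).1
  have hca' : c ≠ a := (mem_erase.1 (mem_erase.1 hc).2).1
  rw [hcb] at hc'
  set G := fails h Z a b with hG
  set f₀ := nf h Z a b c with hf₀
  obtain ⟨m, rfl⟩ : ∃ m, n = m + 6 := ⟨n - 6, by omega⟩
  have e2 : m + 6 - 2 = m + 4 := rfl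
  rw [e2] at hc' hT
  have h16 : 16 * f₀ ≤ (m + 6) ^ 2 := by
    have h2 : (m + 4) * (16 * f₀) ≤ (m + 4) * (m + 6) ^ 2 := by
      calc (m + 4) * (16 * f₀) = 16 * ((m + 4) * f₀) := by ring
        _ ≤ 16 * G := Nat.mul_le_mul_left _ hc'
        _ ≤ _ := hT
        _ = _ := by ring
    exact Nat.le_of_mul_le_mul_left h2 (by positivity)
  have hne : ∀ a, Nonempty (On L Z a) := fun a => ⟨(lam h P₀ a).symm a⟩
  have hcard : Fintype.card F = Fintype.card (Oth Z) := by rw [hF, hι]
  have : Fintype (On L Z a) := Fintype.ofEquiv F (lam h P₀ a).symm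
  have hcA : Fintype.card (On L Z a) = Fintype.card (Oth Z) := by
    rw [Fintype.card_congr (lam h P₀ a), hcard]
  have hne' := hne b
  have hne'' := hne a
  obtain ⟨H, hH, hHb⟩ := exists_reg (fun P : Oth Z => pr h P a b) (fun P => pr h P b c)
    (fun P => pr h P a c) hcA (by omega) (pr_injective h hab.symm) (pr_injective h hcb'.symm)
    (fun P Q x hx => pr_inj h hca'.symm P Q x hx) (by rw [hι]; exact h16)
  have hb4 : (qb (fun P : Oth Z => pr h P a b) H).card ≤ 4 * nf h Z a b c := by
    unfold qb nf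
    convert hHb
  rw [← hf₀] at hb4
  refine ⟨H, hH, ?_⟩
  -- the three kinds of lines
  have k1 : (qb (fun P : Oth Z => pr h P a a) H).card = 0 := by
    rw [card_eq_zero, eq_empty_iff_forall_notMem]
    intro p hp
    rw [mem_qb] at hp
    apply hp
    simp only [pr_self]
    exact H.one_mem
  have k2 : ∀ m ∈ (univ.erase a).erase b, (qb (fun P : Oth Z => pr h P a m) H).card ≤
      2 * nf h Z a b m + 4 * f₀ := by
    intro m hm
    have h1 := qb_le (fun P : Oth Z => pr h P a b) (fun P => pr h P b m) (fun P => pr h P a m)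
      (pr_injective h hab.symm) H
    have h2 : (badP (fun P : Oth Z => pr h P a b) (fun P => pr h P b m)
      (fun P => pr h P a m)).card = nf h Z a b m := rfl
    omega
  have k3 : ∑ m, (qb (fun P : Oth Z => pr h P a m) H).card ≤ 2 * G + 4 * (m + 5) * f₀ := by
    rw [← add_sum_erase _ _ (mem_univ a), k1, zero_add, ← add_sum_erase _ _ hb]
    have h3 := sum_le_sum k2
    rw [sum_add_distrib, ← mul_sum, sum_const, hcb, smul_eq_mul, e2] at h3
    have h4 : ∑ i ∈ (univ.erase a).erase b, nf h Z a b i = G := rfl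
    nlinarith
  have k4 : 4 * (m + 5) * f₀ ≤ 5 * G := by
    nlinarith
  omega

end Pool.Agent.V7H30.TP
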