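import Pool.Agent.N606.ST.FDefs

/-!
# Products of perspectivities with centres on a line
-/

set_option autoImplicit false

namespace Pool.Agent.V7H30.TP

open Pool.Agent.N606.ST

/-- The product of the perspectivity `a → b` with centre `P` and the perspectivity `b → c` with
centre `Q` is the perspectivity `a → c` with centre `R`: if `P, x, y` are collinear and `Q, y, z`
are collinear, then `R, x, z` are collinear. -/
def IsProduct {V : Type} (B : Finset (Finset V)) (a b c : Finset V) (P Q R : V) : Prop :=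
  ∀ x ∈ a, ∀ y ∈ b, ∀ z ∈ c, Col B P x y → Col B Q y z → Col B R x z

/-- `a` is a block through `Z` other than `l`. -/
def Line {V : Type} (B : Finset (Finset V)) (l : Finset V) (Z : V) (a : Finset V) : Prop :=
  a ∈ B ∧ Z ∈ a ∧ a ≠ l

/-- The triples `(c, P, Q)` of a third line `c ≠ l` through `Z` and two points `P, Q ≠ Z` of `l`
for which the product `a → b → c` of the perspectivities with centres `P` and `Q` is not a
perspectivity `a → c` with centre on `l`. -/
def fail {V : Type} (B : Finset (Finset V)) (l : Finset V) (Z : V) (a b : Finset V) :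
    Set (Finset V × V × V) :=
  {q | (Line B l Z q.1 ∧ q.1 ≠ a ∧ q.1 ≠ b) ∧ (q.2.1 ∈ l ∧ q.2.1 ≠ Z) ∧ (q.2.2 ∈ l ∧ q.2.2 ≠ Z) ∧
    ¬ ∃ R ∈ l, R ≠ Z ∧ IsProduct B a b q.1 q.2.1 q.2.2 R}

end Pool.Agent.V7H30.TP
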