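import Pool.Agent.V7H30.TP.Tail

/-!
# The gap for one centre
-/

set_option autoImplicit false

namespace Pool.Agent.V7H30.TP

open Finset Equiv

/-- A regular group is its own double centralizer. -/
theorem Reg.mem_of_comm {A : Type} [Finite A] [Nonempty A] {H : Subgroup (Perm A)} (hH : Reg H)
    {g : Perm A} (hg : ∀ e ∈ Subgroup.centralizer (H : Set (Perm A)), g * e = e * g) : g ∈ H := by
  obtain ⟨x⟩ := ‹Nonempty A›
  obtain ⟨k, hk, hkx⟩ := hH.2 x (g x)
  have hc := hH.centralizer
  have h1 : k⁻¹ * g = 1 := by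
    ext z
    obtain ⟨e, he, rfl⟩ := hc.2 x z
    have h2 : k * e = e * k := (Subgroup.mem_centralizer_iff.1 he) k hk
    have h3 : g (e x) = e (g x) := by
      have := congrArg (fun f : Perm A => f x) (hg e he)
      exact this
    have h4 : k⁻¹ * e = e * k⁻¹ := by
      rw [inv_mul_eq_iff_eq_mul, ← mul_assoc, h2, mul_assoc, mul_inv_cancel, mul_one]
    rw [Perm.mul_apply, h3, ← Perm.mul_apply, h4, Perm.mul_apply, ← hkx]
    simp
  rw [inv_mul_eq_one] at h1
  rw [← h1]
  exact hk

variable {K Pt F : Type} {L : K → Pt → F} (h : OA L) [Fintype K] [Fintype F]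
  [DecidableEq K] [DecidableEq F]

/-- All projections from one line agree up to a regular group. -/
def Good (Z : K) : Prop := ∃ (a : F) (H : Subgroup (Perm (On L Z a))), Reg H ∧
  ∀ (m : F) (P Q : Oth Z), (pr h P a m).trans (pr h Q a m).symm ∈ H

/-- **The gap.** -/
theorem good_of_few (hJ : ∀ x y, ∃ k, L k x = L k y) {n : ℕ} (hn : 6 ≤ n)
    (hF : Fintype.card F = n) (hK : Fintype.card K = n + 1) (Z : K)
    {a b : F} (hab : b ≠ a) (hT : 7 * fails h Z a b < n * (n - 1)) : Good h Z := by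
  classical
  have hι : Fintype.card (Oth Z) = n := by
    rw [Fintype.card_subtype_compl, hK, Fintype.card_subtype_eq]
    rfl
  obtain ⟨P₀⟩ : Nonempty (Oth Z) := Fintype.card_pos_iff.1 (by omega)
  have hneι : (univ : Finset (Oth Z)).Nonempty := ⟨P₀, mem_univ _⟩
  obtain ⟨H, hH, hS⟩ := centre h Z hn hF hK hab (by
    obtain ⟨m, rfl⟩ : ∃ m, n = m + 6 := ⟨n - 6, by omega⟩
    have e1 : m + 6 - 1 = m + 5 := rfl
    have e2 : m + 6 - 2 = m + 4 := rfl
    rw [e1] at hT
    rw [e2]
    have h1 : 16 * ((m + 6) * (m + 5)) ≤ 7 * ((m + 6) ^ 2 * (m + 4)) := by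
      have h2 : 16 * (m + 5) ≤ 7 * ((m + 6) * (m + 4)) := by nlinarith
      calc 16 * ((m + 6) * (m + 5)) = (m + 6) * (16 * (m + 5)) := by ring
        _ ≤ (m + 6) * (7 * ((m + 6) * (m + 4))) := Nat.mul_le_mul_left _ h2
        _ = _ := by ring
    omega)
  have hfin : Finite (On L Z a) := Finite.of_equiv F (lam h P₀ a).symm
  have hneF : Nonempty F := Fintype.card_pos_iff.1 (by omega)
  have hneA : Nonempty (On L Z a) := ⟨(lam h P₀ a).symm a⟩
  refine ⟨a, H, hH, ?_⟩
  -- representatives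
  have hrep : ∀ m : F, ∃ P : Oth Z, n * (univ.filter fun Q : Oth Z =>
      (pr h P a m).trans (pr h Q a m).symm ∉ H).card ≤ (qb (fun P : Oth Z => pr h P a m) H).card := by
    intro m
    have h1 : ∑ P : Oth Z, (univ.filter fun Q : Oth Z =>
        (pr h P a m).trans (pr h Q a m).symm ∉ H).card ≤
          (qb (fun P : Oth Z => pr h P a m) H).card := by
      rw [← card_sigma]
      refine card_le_card_of_injOn (fun s => (s.2, s.1)) ?_ ?_
      · rintro ⟨P, Q⟩ hs
        rw [mem_coe, mem_sigma, mem_filter] at hs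
        rw [mem_coe, mem_qb]
        exact hs.2.2
      · rintro ⟨P, Q⟩ _ ⟨P', Q'⟩ _ hpq
        simp only [Prod.mk.injEq] at hpq
        rw [hpq.1, hpq.2]
    obtain ⟨P, _, hP⟩ := exists_mul_le hneι _ h1
    rw [card_univ, hι] at hP
    exact ⟨P, hP⟩
  choose rep hrep using hrep
  let Bd : F → Finset (Oth Z) := fun m => univ.filter fun Q : Oth Z =>
      (pr h (rep m) a m).trans (pr h Q a m).symm ∉ H
  have hBd : ∀ m Q, Q ∉ Bd m → (pr h (rep m) a m).trans (pr h Q a m).symm ∈ H := by
    intro m Q hQ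
    simpa [Bd] using hQ
  have hsum : ∑ m, (Bd m).card < n - 1 := by
    have h1 : n * ∑ m, (Bd m).card < n * (n - 1) := by
      rw [mul_sum]
      refine lt_of_le_of_lt (sum_le_sum fun m _ => hrep m) (lt_of_le_of_lt hS hT)
    exact Nat.lt_of_mul_lt_mul_left h1
  have hempty : ∀ m, Bd m = ∅ := by
    intro m
    by_contra hne
    obtain ⟨P, hP⟩ := nonempty_iff_ne_empty.2 hne
    have hP' : (pr h (rep m) a m).trans (pr h P a m).symm ∉ H := (mem_filter.1 hP).2
    -- an element which does not respect the projection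
    obtain ⟨e, he, z, hez⟩ : ∃ e ∈ Subgroup.centralizer (H : Set (Perm (On L Z a))),
        ∃ z : On L Z a, pr h P a m (e z) ≠
          pr h (rep m) a m (e ((pr h (rep m) a m).symm (pr h P a m z))) := by
      by_contra hcon
      push Not at hcon
      apply hP'
      refine hH.mem_of_comm fun e he => ?_
      ext1 w
      have h1 := hcon e he ((pr h P a m).symm (pr h (rep m) a m w))
      rw [Equiv.apply_symm_apply, Equiv.symm_apply_apply] at h1
      simp only [Perm.mul_apply, Equiv.trans_apply]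
      rw [← h1, Equiv.symm_apply_apply]
    set x := pr h P a m z with hx
    -- the moved point of a line
    have hmove : ∀ (m' : F) (x' : Pt), L Z x' = m' → ∃ y : Pt, L Z y = m' ∧
        ∀ Q : Oth Z, Q ∉ Bd m' → L Q.1 y = act h Q e (L Q.1 x') := by
      intro m' x' hx'
      obtain ⟨y, hy1, hy2⟩ := h.exists (rep m').2.symm m' (act h (rep m') e (L (rep m').1 x'))
      refine ⟨y, hy1, fun Q hQ => ?_⟩
      obtain ⟨y', w1, w2, w3⟩ := exists_move h (hBd m' Q hQ) he hx'
      have h1 : y = y' := h.ext (rep m').2.symm (hy1.trans w1.symm) (hy2.trans w2.symm)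
      rw [h1, w3]
    obtain ⟨y, hy1, hy2⟩ := hmove m x.1 x.2
    have hrepm : rep m ∉ Bd m := by
      simp only [Bd, mem_filter, mem_univ, true_and, not_not]
      rw [Equiv.self_trans_symm]
      exact H.one_mem
    -- `y` is not on the image of the line
    have hyP : L P.1 y ≠ L P.1 (e z).1 := by
      intro h1
      apply hez
      have h2 : pr h P a m (e z) = ⟨y, hy1⟩ := pr_eq h P a m _ _ h1
      rw [h2]
      symm
      apply pr_eq
      simp only
      rw [hy2 _ hrepm, ← act_lam h]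
      congr 1
      have h3 := pr_spec h (rep m) a m ((pr h (rep m) a m).symm x)
      rw [Equiv.apply_symm_apply] at h3
      exact h3
    have hex : ∀ m' : F, ∃ (x' y' : Pt), L Z x' = m' ∧ L P.1 x' = L P.1 z.1 ∧ L Z y' = m' ∧
        ∀ Q : Oth Z, Q ∉ Bd m' → L Q.1 y' = act h Q e (L Q.1 x') := by
      intro m'
      obtain ⟨y', h1, h2⟩ := hmove m' (pr h P a m' z).1 (pr h P a m' z).2
      exact ⟨(pr h P a m' z).1, y', (pr h P a m' z).2, pr_spec h P a m' z, h1, h2⟩
    choose x' y' hx1 hx2 hy1' hy2' using hex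
    have hR : ∀ m' : F, ∃ R : K, L R y = L R (y' m') := fun m' => hJ _ _
    choose R hR using hR
    have hRZ : ∀ m', m' ≠ m → R m' ≠ Z := by
      intro m' hm' h1
      have h2 := hR m'
      rw [h1, hy1, hy1'] at h2
      exact hm' h2.symm
    have hyP' : ∀ m', P ∉ Bd m' → L P.1 (y' m') = L P.1 (e z).1 := by
      intro m' hm'
      rw [hy2' m' P hm', hx2, act_lam]
    have hRP : ∀ m', P ∉ Bd m' → R m' ≠ P.1 := by
      intro m' hm' h1
      have h2 := hR m'
      rw [h1, hyP' m' hm'] at h2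
      exact hyP h2
    have hRbad : ∀ m' (hm' : m' ≠ m), P ∉ Bd m' → (⟨R m', hRZ m' hm'⟩ : Oth Z) ∉ Bd m' →
        (⟨R m', hRZ m' hm'⟩ : Oth Z) ∈ Bd m := by
      intro m' hm' hPm hRm
      by_contra hRm'
      have h1 := hy2 _ hRm'
      have h2 := hy2' m' _ hRm
      simp only at h1 h2
      rw [hR m', h2] at h1
      have h3 := (act h ⟨R m', hRZ m' hm'⟩ e).injective h1
      have h4 : L P.1 (x' m') = L P.1 x.1 := by
        rw [hx2, hx, pr_spec h]
      have h5 : x' m' = x.1 := h.ext (hRP m' hPm) h3 h4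
      apply hm'
      rw [← hx1 m', h5, x.2]
    -- counting
    let J₁ : Finset F := (univ.erase m).filter fun m' => P ∈ Bd m'
    let J₂ : Finset F := (univ.erase m).filter fun m' => P ∉ Bd m' ∧
      ∃ Q ∈ Bd m', Q.1 = R m'
    let J₃ : Finset F := (univ.erase m).filter fun m' => P ∉ Bd m' ∧
      ¬ ∃ Q ∈ Bd m', Q.1 = R m'
    have hJ : (univ.erase m : Finset F) ⊆ (J₁ ∪ J₂) ∪ J₃ := by
      intro m' hm'
      by_cases h1 : P ∈ Bd m'
      · exact mem_union_left _ (mem_union_left _ (mem_filter.2 ⟨hm', h1⟩))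
      · by_cases h2 : ∃ Q ∈ Bd m', Q.1 = R m'
        · exact mem_union_left _ (mem_union_right _ (mem_filter.2 ⟨hm', h1, h2⟩))
        · exact mem_union_right _ (mem_filter.2 ⟨hm', h1, h2⟩)
    have hJ3 : J₃.card ≤ (Bd m).card := by
      refine card_le_card_of_injOn (fun m' => if hm' : m' ≠ m then ⟨R m', hRZ m' hm'⟩ else P₀)
        ?_ ?_
      · intro m' hm'
        obtain ⟨h1, h2, h3⟩ := mem_filter.1 (mem_coe.1 hm')
        have h4 : m' ≠ m := (mem_erase.1 h1).1
        simp only [dif_pos h4]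
        exact mem_coe.2 (hRbad m' h4 h2 fun h5 => h3 ⟨_, h5, rfl⟩)
      · intro m₁ hm₁ m₂ hm₂ h12
        obtain ⟨h1, h2, h3⟩ := mem_filter.1 (mem_coe.1 hm₁)
        obtain ⟨h1', h2', h3'⟩ := mem_filter.1 (mem_coe.1 hm₂)
        have h4 : m₁ ≠ m := (mem_erase.1 h1).1
        have h4' : m₂ ≠ m := (mem_erase.1 h1').1
        simp only [dif_pos h4, dif_pos h4', Subtype.mk.injEq] at h12
        have h5 := hR m₁
        have h6 := hR m₂
        rw [← h12] at h6
        have h7 : y' m₁ = y' m₂ := by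
          refine h.ext (hRP m₁ h2) (h5.symm.trans h6) ?_
          rw [hyP' m₁ h2, hyP' m₂ h2']
        rw [← hy1' m₁, h7, hy1' m₂]
    have hJ12 : J₁.card + J₂.card ≤ ∑ m' ∈ univ.erase m, (Bd m').card := by
      have hdisj : Disjoint J₁ J₂ := by
        rw [Finset.disjoint_left]
        intro m' h1 h2
        exact (mem_filter.1 h2).2.1 (mem_filter.1 h1).2
      rw [← card_union_of_disjoint hdisj, card_eq_sum_ones]
      have hsub : J₁ ∪ J₂ ⊆ univ.erase m := union_subset (filter_subset _ _) (filter_subset _ _)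
      refine le_trans (sum_le_sum fun m' hm' => ?_) (sum_le_sum_of_subset hsub)
      rw [mem_union] at hm'
      rcases hm' with hm' | hm'
      · exact card_pos.2 ⟨P, (mem_filter.1 hm').2⟩
      · obtain ⟨Q, hQ, _⟩ := (mem_filter.1 hm').2.2
        exact card_pos.2 ⟨Q, hQ⟩
    have h1 := card_le_card hJ
    have h2 := card_union_le (J₁ ∪ J₂) J₃
    have h3 := card_union_le J₁ J₂
    rw [card_erase_of_mem (mem_univ _), card_univ, hF] at h1
    have h4 : ∑ m', (Bd m').card = (Bd m).card + ∑ m' ∈ univ.erase m, (Bd m').card :=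
      (add_sum_erase _ _ (mem_univ m)).symm
    omega
  intro m P Q
  have h1 := hBd m P (by rw [hempty]; exact notMem_empty _)
  have h2 := hBd m Q (by rw [hempty]; exact notMem_empty _)
  have h3 := H.mul_mem h2 (H.inv_mem h1)
  convert h3 using 1
  ext x
  simp [Perm.mul_apply]

end Pool.Agent.V7H30.TP
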