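import Mathlib

/-!
# Families of bijections which are almost closed under composition
-/

set_option autoImplicit false

namespace Pool.Agent.V7H30.TP

open Finset Equiv

variable {A B C ι : Type} [Fintype ι]

section one

variable (t : ι → A ≃ B) (u : ι → B ≃ C) (w : ι → A ≃ C)

open Classical in
/-- the pairs whose product is not in the third family -/
noncomputable def badP : Finset (ι × ι) :=
  univ.filter fun p => ¬ ∃ k, (t p.1).trans (u p.2) = w k

open Classical in
/-- the indices that a permutation moves inside the family -/
noncomputable def dom (g : Perm A) : Finset ι := univ.filter fun k => ∃ k', g.trans (w k) = w k'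

open Classical in
/-- the failures at one index -/
noncomputable def fl (i : ι) : Finset ι := univ.filter fun j => ¬ ∃ k, (t i).trans (u j) = w k

theorem mem_dom {g : Perm A} {k : ι} : k ∈ dom w g ↔ ∃ k', g.trans (w k) = w k' := by
  simp [dom]

theorem sum_fl : ∑ i, (fl t u w i).card = (badP t u w).card := by
  classical
  have h1 : badP t u w = univ.biUnion fun i => (fl t u w i).image fun j => (i, j) := by
    ext ⟨i, j⟩
    simp [badP, fl]
  rw [h1, card_biUnion]
  · refine sum_congr rfl fun i _ => ?_
    rw [card_image_of_injective]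
    intro a b hab
    simpa using hab
  · intro a _ b _ hab
    rw [Function.onFun, Finset.disjoint_left]
    rintro ⟨x, y⟩ h1 h2
    simp only [mem_image, Prod.mk.injEq] at h1 h2
    obtain ⟨_, _, h3, _⟩ := h1
    obtain ⟨_, _, h4, _⟩ := h2
    exact hab (h3.trans h4.symm)

theorem le_dom (hu : Function.Injective u) {g : Perm A} {i i' : ι} (h : g.trans (t i) = t i') :
    Fintype.card ι ≤ (dom w g).card + ((fl t u w i).card + (fl t u w i').card) := by
  classical
  have h1 : (univ.filter fun j => (∃ k, (t i).trans (u j) = w k) ∧
      ∃ k, (t i').trans (u j) = w k).card ≤ (dom w g).card := by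
    have h2 : ∀ j ∈ (univ.filter fun j => (∃ k, (t i).trans (u j) = w k) ∧
      ∃ k, (t i').trans (u j) = w k), ∃ k, (t i).trans (u j) = w k := by
      intro j hj
      exact (mem_filter.1 hj).2.1
    choose! f hf using h2
    refine card_le_card_of_injOn f ?_ ?_
    · intro j hj
      have hj' := hj
      rw [mem_coe, mem_filter] at hj
      obtain ⟨_, _, k', hk'⟩ := hj
      rw [mem_coe, dom, mem_filter]
      refine ⟨mem_univ _, k', ?_⟩
      rw [← hf j (by exact_mod_cast hj'), ← hk', ← h]
      rfl
    · intro j hj j' hj' hjj
      have h3 := hf j (by exact_mod_cast hj)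
      have h4 := hf j' (by exact_mod_cast hj')
      rw [hjj, ← h4] at h3
      apply hu
      ext x
      have h5 := congrArg (fun e : A ≃ C => e ((t i).symm x)) h3
      simpa using h5
  have h6 : (univ : Finset ι) ⊆ (univ.filter fun j => (∃ k, (t i).trans (u j) = w k) ∧
      ∃ k, (t i').trans (u j) = w k) ∪ (fl t u w i ∪ fl t u w i') := by
    intro j _
    by_cases h7 : ∃ k, (t i).trans (u j) = w k
    · by_cases h8 : ∃ k, (t i').trans (u j) = w k
      · exact mem_union_left _ (mem_filter.2 ⟨mem_univ _, h7, h8⟩)
      · exact mem_union_right _ (mem_union_right _ (mem_filter.2 ⟨mem_univ _, h8⟩))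
    · exact mem_union_right _ (mem_union_left _ (mem_filter.2 ⟨mem_univ _, h7⟩))
  have h9 := (card_le_card h6).trans (card_union_le _ _)
  have h10 := card_union_le (fl t u w i) (fl t u w i')
  rw [card_univ] at h9
  omega

theorem avg_dom (ht : Function.Injective t) (hu : Function.Injective u) (g : Perm A) :
    (dom t g).card * Fintype.card ι ≤ (dom t g).card * (dom w g).card +
      2 * (badP t u w).card := by
  classical
  have h1 : ∀ i ∈ dom t g, ∃ i', g.trans (t i) = t i' := fun i hi => (mem_filter.1 hi).2
  choose! f hf using h1
  have hinj : Set.InjOn f (dom t g) := by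
    intro i hi i' hi' hii
    have h2 := hf i (by exact_mod_cast hi)
    have h3 := hf i' (by exact_mod_cast hi')
    rw [hii, ← h3] at h2
    apply ht
    ext x
    have h5 := congrArg (fun e : A ≃ B => e (g.symm x)) h2
    simpa using h5
  have h2 : ∑ i ∈ dom t g, Fintype.card ι ≤ ∑ i ∈ dom t g, ((dom w g).card +
      ((fl t u w i).card + (fl t u w (f i)).card)) :=
    sum_le_sum fun i hi => le_dom t u w hu (hf i hi)
  rw [sum_const, smul_eq_mul, sum_add_distrib, sum_const, smul_eq_mul, sum_add_distrib] at h2
  have h3 : ∑ i ∈ dom t g, (fl t u w i).card ≤ (badP t u w).card := by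
    rw [← sum_fl]
    exact sum_le_sum_of_subset (subset_univ _)
  have h4 : ∑ i ∈ dom t g, (fl t u w (f i)).card ≤ (badP t u w).card := by
    rw [← sum_fl, ← sum_image (f := fun i => (fl t u w i).card) hinj]
    exact sum_le_sum_of_subset (subset_univ _)
  omega

/-- The number of failures is the same for the other two families. -/
theorem badP_swap (ht : Function.Injective t) (hw : Function.Injective w) :
    (badP w (fun j => (u j).symm) t).card = (badP t u w).card := by
  classical
  rcases isEmpty_or_nonempty ι with he | he
  · rw [Finset.eq_empty_of_isEmpty (badP t u w), Finset.eq_empty_of_isEmpty (badP w _ t)]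
  have h1 : ((univ : Finset (ι × ι)).filter fun p => ∃ k, (t p.1).trans (u p.2) = w k).card =
      ((univ : Finset (ι × ι)).filter fun p => ∃ k, (w p.1).trans (u p.2).symm = t k).card := by
    have h2 : ∀ p ∈ ((univ : Finset (ι × ι)).filter fun p => ∃ k, (t p.1).trans (u p.2) = w k),
        ∃ k, (t p.1).trans (u p.2) = w k := fun p hp => (mem_filter.1 hp).2
    choose! f hf using h2
    refine card_bij (fun p _ => (f p, p.2)) ?_ ?_ ?_
    · intro p hp
      rw [mem_filter]
      refine ⟨mem_univ _, p.1, ?_⟩
      have h3 := hf p hp
      simp only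
      rw [← h3]
      ext x
      simp
    · intro p hp q hq hpq
      rw [Prod.mk.injEq] at hpq
      have h3 := hf p hp
      have h4 := hf q hq
      rw [hpq.1, ← h4, hpq.2] at h3
      refine Prod.ext ?_ hpq.2
      apply ht
      ext x
      have h5 := congrArg (fun e : A ≃ C => (u q.2).symm (e x)) h3
      simpa using h5
    · rintro ⟨k, j⟩ hk
      rw [mem_filter] at hk
      obtain ⟨_, i, hi⟩ := hk
      have h3 : (t i).trans (u j) = w k := by
        rw [← hi]
        ext x
        simp
      have h4 : ((i, j) : ι × ι) ∈
          ((univ : Finset (ι × ι)).filter fun p => ∃ k, (t p.1).trans (u p.2) = w k) :=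
        mem_filter.2 ⟨mem_univ _, k, h3⟩
      refine ⟨(i, j), h4, ?_⟩
      have h5 := hf (i, j) h4
      simp only at h5 ⊢
      rw [h3] at h5
      rw [hw h5]
  have h2 := card_filter_add_card_filter_not (s := (univ : Finset (ι × ι)))
    (fun p => ∃ k, (t p.1).trans (u p.2) = w k)
  have h3 := card_filter_add_card_filter_not (s := (univ : Finset (ι × ι)))
    (fun p => ∃ k, (w p.1).trans (u p.2).symm = t k)
  have h4 : (badP t u w).card =
    ((univ : Finset (ι × ι)).filter fun p => ¬ ∃ k, (t p.1).trans (u p.2) = w k).card := by
    unfold badP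
    congr
  have h5 : (badP w (fun j => (u j).symm) t).card =
    ((univ : Finset (ι × ι)).filter fun p => ¬ ∃ k, (w p.1).trans (u p.2).symm = t k).card := by
    unfold badP
    congr
  rw [h4, h5]
  omega

theorem dom_of_bad (ht : Function.Injective t) (hu : Function.Injective u)
    (hw : Function.Injective w) (hbad : 16 * (badP t u w).card ≤ Fintype.card ι ^ 2)
    {g : Perm A} (hg : Fintype.card ι < 2 * (dom w g).card) :
    5 * Fintype.card ι ≤ 6 * (dom w g).card := by
  have h1 := avg_dom t u w ht hu g
  have h2 := avg_dom w (fun j => (u j).symm) t hw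
    (fun a b hab => hu (by simpa using congrArg Equiv.symm hab)) g
  rw [badP_swap t u w ht hw] at h2
  set n := Fintype.card ι
  set a := (dom w g).card
  set b := (dom t g).card
  set d := (badP t u w).card
  have han : a ≤ n := card_le_univ _
  have hn : 0 < n := by omega
  have h3 : 3 * n < 4 * b := by
    by_contra h4
    push Not at h4
    have h5 : a * (4 * b) ≤ a * (3 * n) := Nat.mul_le_mul_left a h4
    have h6 : n * (2 * a) ≤ n * n := by nlinarith
    have h7 := Nat.le_of_mul_le_mul_left h6 hn
    omega
  by_contra h4
  push Not at h4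
  have h5 : b * (6 * a) ≤ b * (5 * n) := Nat.mul_le_mul_left b h4.le
  have h6 : n * (4 * b) ≤ n * (3 * n) := by nlinarith
  have h7 := Nat.le_of_mul_le_mul_left h6 hn
  omega

/-- The stable permutations form a group. -/
noncomputable def stab (ht : Function.Injective t) (hu : Function.Injective u)
    (hw : Function.Injective w) (hbad : 16 * (badP t u w).card ≤ Fintype.card ι ^ 2)
    (hn : 0 < Fintype.card ι) : Subgroup (Perm A) where
  carrier := {g | Fintype.card ι < 2 * (dom w g).card}
  one_mem' := by
    have h1 : dom w (1 : Perm A) = univ := by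
      ext k
      simp only [dom, mem_filter, mem_univ, true_and, iff_true]
      exact ⟨k, by ext x; simp⟩
    simp only [Set.mem_ofPred_eq, h1, card_univ]
    omega
  mul_mem' := by
    classical
    intro g h hg hh
    simp only [Set.mem_ofPred_eq] at hg hh ⊢
    have h1 := dom_of_bad t u w ht hu hw hbad hg
    have h2 := dom_of_bad t u w ht hu hw hbad hh
    have h3 : ∀ k ∈ dom w g, ∃ k', g.trans (w k) = w k' := fun k hk => (mem_filter.1 hk).2
    have hne : Nonempty ι := Fintype.card_pos_iff.1 hn
    choose! f hf using h3
    have h4 : ∀ k ∈ dom w h, ∃ k', h.trans (w k) = w k' := fun k hk => (mem_filter.1 hk).2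
    choose! f' hf' using h4
    have hinj : Set.InjOn f (dom w g) := by
      intro i hi i' hi' hii
      have h2 := hf i (by exact_mod_cast hi)
      have h3 := hf i' (by exact_mod_cast hi')
      rw [hii, ← h3] at h2
      apply hw
      ext x
      have h5 := congrArg (fun e : A ≃ C => e (g.symm x)) h2
      simpa using h5
    -- the indices that can be moved by `g` and then by `h`
    have h5 : ((dom w g).filter fun k => f k ∈ dom w h) ⊆ dom w (g * h) := by
      intro k hk
      rw [mem_filter] at hk
      rw [dom, mem_filter]
      refine ⟨mem_univ _, f' (f k), ?_⟩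
      rw [← hf' _ hk.2, ← hf _ hk.1]
      rfl
    have h6 : ((dom w g).filter fun k => ¬ f k ∈ dom w h).card ≤ ((dom w h)ᶜ : Finset ι).card := by
      refine card_le_card_of_injOn f ?_ ?_
      · intro k hk
        rw [mem_coe, mem_filter] at hk
        rw [mem_coe, mem_compl]
        exact hk.2
      · exact hinj.mono (by intro k hk; exact (mem_filter.1 hk).1)
    have h7 := card_filter_add_card_filter_not (s := dom w g) (fun k => f k ∈ dom w h)
    have h8 := card_le_card h5
    have h9 := card_compl_add_card (dom w h)
    omega
  inv_mem' := by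
    classical
    intro g hg
    simp only [Set.mem_ofPred_eq] at hg ⊢
    have h3 : ∀ k ∈ dom w g, ∃ k', g.trans (w k) = w k' := fun k hk => (mem_filter.1 hk).2
    have hne : Nonempty ι := Fintype.card_pos_iff.1 hn
    choose! f hf using h3
    have h1 : (dom w g).card ≤ (dom w g⁻¹).card := by
      refine card_le_card_of_injOn f ?_ ?_
      · intro k hk
        rw [mem_coe, dom, mem_filter]
        refine ⟨mem_univ _, k, ?_⟩
        rw [← hf k (by exact_mod_cast hk)]
        ext x
        simp
      · intro i hi i' hi' hii
        have h2 := hf i (by exact_mod_cast hi)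
        have h3 := hf i' (by exact_mod_cast hi')
        rw [hii, ← h3] at h2
        apply hw
        ext x
        have h5 := congrArg (fun e : A ≃ C => e (g.symm x)) h2
        simpa using h5
    omega

/-- Most quotients of members of the first family are stable. -/
theorem quot_bad (ht : Function.Injective t) (hu : Function.Injective u)
    (hw : Function.Injective w) (hbad : 16 * (badP t u w).card ≤ Fintype.card ι ^ 2)
    (hn : 0 < Fintype.card ι) [DecidablePred fun p : ι × ι =>
      (t p.2).trans (t p.1).symm ∉ stab t u w ht hu hw hbad hn] :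
    (univ.filter fun p : ι × ι => (t p.2).trans (t p.1).symm ∉ stab t u w ht hu hw hbad hn).card ≤
      4 * (badP t u w).card := by
  classical
  set n := Fintype.card ι with hndef
  set S := univ.filter fun p : ι × ι => (t p.2).trans (t p.1).symm ∉ stab t u w ht hu hw hbad hn
  have h1 : ∀ p ∈ S, n ≤ 2 * ((fl t u w p.1).card + (fl t u w p.2).card) := by
    intro p hp
    have h2 : ¬ (n < 2 * (dom w ((t p.2).trans (t p.1).symm)).card) := (mem_filter.1 hp).2
    have h3 := le_dom t u w hu (g := (t p.2).trans (t p.1).symm) (i := p.1) (i' := p.2)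
      (by ext x; simp)
    omega
  have h2 : ∑ p ∈ S, n ≤ ∑ p ∈ S, 2 * ((fl t u w p.1).card + (fl t u w p.2).card) := sum_le_sum h1
  have h3 : ∑ p ∈ S, 2 * ((fl t u w p.1).card + (fl t u w p.2).card) ≤
      ∑ p : ι × ι, 2 * ((fl t u w p.1).card + (fl t u w p.2).card) :=
    sum_le_sum_of_subset (subset_univ _)
  have h4 : ∑ p : ι × ι, 2 * ((fl t u w p.1).card + (fl t u w p.2).card) =
      4 * n * (badP t u w).card := by
    rw [← mul_sum, sum_add_distrib, Fintype.sum_prod_type, Fintype.sum_prod_type]
    simp only [sum_const, card_univ, smul_eq_mul]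
    rw [← mul_sum, sum_fl]
    ring
  rw [sum_const, smul_eq_mul] at h2
  have h5 : S.card * n ≤ 4 * (badP t u w).card * n := by
    calc S.card * n ≤ _ := h2
      _ ≤ _ := h3
      _ = _ := h4
      _ = _ := by ring
  exact Nat.le_of_mul_le_mul_right h5 hn

end one

end Pool.Agent.V7H30.TP
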