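import Pool.Agent.V7H30.TP.Reg

/-!
# Parallel classes: projections between parallel lines
-/

set_option autoImplicit false

namespace Pool.Agent.V7H30.TP

open Finset Equiv

/-- The array `L` is orthogonal: `L k x` is the line of the parallel class `k` through the
point `x`, and two lines of different classes have exactly one common point. -/
def OA {K Pt F : Type} (L : K → Pt → F) : Prop :=
  ∀ k k', k ≠ k' → Function.Bijective fun x => (L k x, L k' x)

/-- the points of the line `a` of the class `Z` -/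
abbrev On {K Pt F : Type} (L : K → Pt → F) (Z : K) (a : F) : Type := {x : Pt // L Z x = a}

/-- the other classes -/
abbrev Oth {K : Type} (Z : K) : Type := {P : K // P ≠ Z}

variable {K Pt F : Type} {L : K → Pt → F}

theorem OA.ext (h : OA L) {k k' : K} (hk : k ≠ k') {x y : Pt} (h1 : L k x = L k y)
    (h2 : L k' x = L k' y) : x = y :=
  (h k k' hk).1 (Prod.ext h1 h2)

theorem OA.exists (h : OA L) {k k' : K} (hk : k ≠ k') (a b : F) : ∃ x, L k x = a ∧ L k' x = b := by
  obtain ⟨x, hx⟩ := (h k k' hk).2 (a, b)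
  exact ⟨x, congrArg Prod.fst hx, congrArg Prod.snd hx⟩

variable (h : OA L) {Z : K}

/-- The lines of the class `P` as points of the line `a` of the class `Z`. -/
noncomputable def lam (P : Oth Z) (a : F) : On L Z a ≃ F :=
  Equiv.ofBijective (fun x => L P.1 x.1) ⟨by
    intro x y hxy
    exact Subtype.ext (h.ext P.2 hxy (x.2.trans y.2.symm)), by
    intro b
    obtain ⟨x, h1, h2⟩ := h.exists P.2 b a
    exact ⟨⟨x, h2⟩, h1⟩⟩

theorem lam_apply (P : Oth Z) (a : F) (x : On L Z a) : lam h P a x = L P.1 x.1 := rfl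

/-- The projection from the line `a` to the line `b` along the lines of the class `P`. -/
noncomputable def pr (P : Oth Z) (a b : F) : On L Z a ≃ On L Z b :=
  (lam h P a).trans (lam h P b).symm

theorem pr_spec (P : Oth Z) (a b : F) (x : On L Z a) : L P.1 (pr h P a b x).1 = L P.1 x.1 := by
  rw [← lam_apply h P b, pr, Equiv.trans_apply, Equiv.apply_symm_apply]
  rfl

theorem pr_eq (P : Oth Z) (a b : F) (x : On L Z a) (y : On L Z b) (hxy : L P.1 y.1 = L P.1 x.1) :
    pr h P a b x = y := by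
  apply (lam h P b).injective
  rw [lam_apply, lam_apply, pr_spec h, hxy]

theorem pr_inj {a b : F} (hab : a ≠ b) (P Q : Oth Z) (x : On L Z a)
    (hx : pr h P a b x = pr h Q a b x) : P = Q := by
  by_contra hPQ
  have h1 := pr_spec h P a b x
  have h2 := pr_spec h Q a b x
  rw [hx] at h1
  have h3 := h.ext (fun e => hPQ (Subtype.ext e)) h1 h2
  have h4 := (pr h Q a b x).2
  rw [h3, x.2] at h4
  exact hab h4

theorem pr_self (P : Oth Z) (a : F) : pr h P a a = Equiv.refl _ := by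
  rw [pr, Equiv.self_trans_symm]

theorem pr_injective {a b : F} [Nonempty (On L Z a)] (hab : a ≠ b) :
    Function.Injective fun P : Oth Z => pr h P a b := by
  intro P Q hPQ
  obtain ⟨x⟩ := ‹Nonempty (On L Z a)›
  exact pr_inj h hab P Q x (by rw [show pr h P a b = pr h Q a b from hPQ])

/-- the action of a permutation of the points of a line on the lines of another class -/
noncomputable def act (P : Oth Z) {a : F} (e : Perm (On L Z a)) : Perm F :=
  (lam h P a).symm.trans (e.trans (lam h P a))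

theorem act_lam (P : Oth Z) {a : F} (e : Perm (On L Z a)) (x : On L Z a) :
    act h P e (L P.1 x.1) = L P.1 (e x).1 := by
  rw [← lam_apply h P a x, act, Equiv.trans_apply, Equiv.symm_apply_apply, Equiv.trans_apply]
  rfl

theorem act_mul (P : Oth Z) {a : F} (e e' : Perm (On L Z a)) :
    act h P (e * e') = act h P e * act h P e' := by
  ext p
  simp [act]

theorem act_one (P : Oth Z) {a : F} : act h P (1 : Perm (On L Z a)) = 1 := by
  ext p
  simp [act]

/-- Two classes agree on the line `m`. -/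
theorem exists_move {a m : F} {H : Subgroup (Perm (On L Z a))} {P Q : Oth Z}
    (hD : (pr h P a m).trans (pr h Q a m).symm ∈ H) {e : Perm (On L Z a)}
    (he : e ∈ Subgroup.centralizer (H : Set (Perm (On L Z a)))) {x : Pt} (hx : L Z x = m) :
    ∃ y, L Z y = m ∧ L P.1 y = act h P e (L P.1 x) ∧ L Q.1 y = act h Q e (L Q.1 x) := by
  obtain ⟨xP, hxP⟩ := (pr h P a m).surjective ⟨x, hx⟩
  obtain ⟨xQ, hxQ⟩ := (pr h Q a m).surjective ⟨x, hx⟩
  have h1 : (pr h P a m).trans (pr h Q a m).symm xP = xQ := by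
    rw [Equiv.trans_apply, hxP, ← hxQ, Equiv.symm_apply_apply]
  have h2 : (pr h P a m).trans (pr h Q a m).symm (e xP) = e xQ := by
    rw [← h1]
    rw [Subgroup.mem_centralizer_iff] at he
    have h3 := congrArg (fun g : Perm (On L Z a) => g xP) (he _ hD)
    exact h3
  have h3 : pr h P a m (e xP) = pr h Q a m (e xQ) := by
    rw [← h2, Equiv.trans_apply, Equiv.apply_symm_apply]
  refine ⟨(pr h P a m (e xP)).1, (pr h P a m (e xP)).2, ?_, ?_⟩
  · have h4 : L P.1 x = L P.1 xP.1 := by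
      rw [← pr_spec h P a m xP, hxP]
    rw [pr_spec h, h4, act_lam]
  · have h4 : L Q.1 x = L Q.1 xQ.1 := by
      rw [← pr_spec h Q a m xQ, hxQ]
    rw [h3, pr_spec h, h4, act_lam]

section two

variable [Fintype F]

open Classical in
/-- the number of lines on which two classes disagree -/
noncomputable def dis {a : F} (H : Subgroup (Perm (On L Z a))) (P Q : Oth Z) : Finset F :=
  univ.filter fun m => (pr h P a m).trans (pr h Q a m).symm ∉ H

variable {X : K} (hZX : Z ≠ X) {a a' : F} {H : Subgroup (Perm (On L Z a))}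
  {H' : Subgroup (Perm (On L X a'))}

include hZX in
/-- The two groups commute on the lines of most classes. -/
theorem act_comm {P : K} (hPZ : P ≠ Z) (hPX : P ≠ X)
    (hgood : 2 * (dis h H ⟨P, hPZ⟩ ⟨X, hZX.symm⟩).card + 2 * (dis h H' ⟨P, hPX⟩ ⟨Z, hZX⟩).card <
      Fintype.card F)
    {e : Perm (On L Z a)} (he : e ∈ Subgroup.centralizer (H : Set (Perm (On L Z a))))
    {f : Perm (On L X a')} (hf : f ∈ Subgroup.centralizer (H' : Set (Perm (On L X a')))) (p : F) :
    act h ⟨P, hPZ⟩ e (act h ⟨P, hPX⟩ f p) = act h ⟨P, hPX⟩ f (act h ⟨P, hPZ⟩ e p) := by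
  classical
  have hx : ∀ z : F, ∃ x, L P x = p ∧ L Z x = z := fun z => h.exists hPZ p z
  choose pt hpt1 hpt2 using hx
  have hinj : Function.Injective fun z => L X (pt z) := by
    intro z z' hz
    have h1 : pt z = pt z' := h.ext hPX ((hpt1 z).trans (hpt1 z').symm) hz
    rw [← hpt2 z, h1, hpt2 z']
  -- the four bad sets
  let S₁ : Finset F := dis h H ⟨P, hPZ⟩ ⟨X, hZX.symm⟩
  let S₂ : Finset F := univ.filter fun z => L X (pt z) ∈ dis h H' ⟨P, hPX⟩ ⟨Z, hZX⟩
  let S₃ : Finset F := univ.filter fun z =>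
    act h ⟨X, hZX.symm⟩ e (L X (pt z)) ∈ dis h H' ⟨P, hPX⟩ ⟨Z, hZX⟩
  let S₄ : Finset F := univ.filter fun z =>
    act h ⟨Z, hZX⟩ f z ∈ dis h H ⟨P, hPZ⟩ ⟨X, hZX.symm⟩
  have c₂ : S₂.card ≤ (dis h H' ⟨P, hPX⟩ ⟨Z, hZX⟩).card := by
    refine card_le_card_of_injOn (fun z => L X (pt z)) ?_ hinj.injOn
    intro z hz
    exact (mem_filter.1 (mem_coe.1 hz)).2
  have c₃ : S₃.card ≤ (dis h H' ⟨P, hPX⟩ ⟨Z, hZX⟩).card := by
    refine card_le_card_of_injOn (fun z => act h ⟨X, hZX.symm⟩ e (L X (pt z))) ?_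
      ((act h ⟨X, hZX.symm⟩ e).injective.comp hinj).injOn
    intro z hz
    exact (mem_filter.1 (mem_coe.1 hz)).2
  have c₄ : S₄.card ≤ (dis h H ⟨P, hPZ⟩ ⟨X, hZX.symm⟩).card := by
    refine card_le_card_of_injOn (fun z => act h ⟨Z, hZX⟩ f z) ?_
      (act h ⟨Z, hZX⟩ f).injective.injOn
    intro z hz
    exact (mem_filter.1 (mem_coe.1 hz)).2
  obtain ⟨z, hz⟩ : ∃ z, z ∉ (S₁ ∪ S₂) ∪ (S₃ ∪ S₄) := by
    by_contra hcon
    push Not at hcon
    have h1 : (univ : Finset F) ⊆ (S₁ ∪ S₂) ∪ (S₃ ∪ S₄) := fun z _ => hcon z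
    have h2 := card_le_card h1
    have h3 := card_union_le (S₁ ∪ S₂) (S₃ ∪ S₄)
    have h4 := card_union_le S₁ S₂
    have h5 := card_union_le S₃ S₄
    rw [card_univ] at h2
    have h6 : S₁.card = (dis h H ⟨P, hPZ⟩ ⟨X, hZX.symm⟩).card := rfl
    omega
  simp only [mem_union, not_or] at hz
  obtain ⟨⟨g1, g2⟩, g3, g4⟩ := hz
  have g1' : (pr h ⟨P, hPZ⟩ a z).trans (pr h ⟨X, hZX.symm⟩ a z).symm ∈ H := by
    by_contra hc
    exact g1 (by simpa [S₁, dis] using hc)
  have g2' : (pr h ⟨P, hPX⟩ a' (L X (pt z))).trans (pr h ⟨Z, hZX⟩ a' (L X (pt z))).symm ∈ H' := by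
    by_contra hc
    exact g2 (by simpa [S₂, dis] using hc)
  have g3' : (pr h ⟨P, hPX⟩ a' (act h ⟨X, hZX.symm⟩ e (L X (pt z)))).trans
      (pr h ⟨Z, hZX⟩ a' (act h ⟨X, hZX.symm⟩ e (L X (pt z)))).symm ∈ H' := by
    by_contra hc
    exact g3 (by simpa [S₃, dis] using hc)
  have g4' : (pr h ⟨P, hPZ⟩ a (act h ⟨Z, hZX⟩ f z)).trans
      (pr h ⟨X, hZX.symm⟩ a (act h ⟨Z, hZX⟩ f z)).symm ∈ H := by
    by_contra hc
    exact g4 (by simpa [S₄, dis] using hc)
  obtain ⟨y₁, u1, u2, u3⟩ := exists_move h g1' he (hpt2 z)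
  simp only at u2 u3
  obtain ⟨y₂, v1, v2, v3⟩ := exists_move h g3' hf u3
  simp only at v2 v3
  obtain ⟨y₃, w1, w2, w3⟩ := exists_move h g2' hf (x := pt z) rfl
  simp only at w2 w3
  rw [hpt2] at w3
  obtain ⟨y₄, t1, t2, t3⟩ := exists_move h g4' he w3
  simp only at t2 t3
  have h1 : y₂ = y₄ := by
    refine h.ext hZX ?_ ?_
    · rw [v3, t1, u1]
    · rw [v1, t3, w1]
  rw [← hpt1 z, ← w2, ← t2, ← h1, v2, u2]

end two

end Pool.Agent.V7H30.TP
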