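import Pool.Agent.V7H30.TP.Tail
import Pool.Agent.V7H30.TP.FailDefs
import Pool.Agent.N606.ST.Planes

/-!
# The parallel classes of a projective plane with respect to a line
-/

set_option autoImplicit false

namespace Pool.Agent.V7H30.TP

open Finset Equiv Pool.Agent.N606.ST

variable {V : Type} [Fintype V] [DecidableEq V] {n : ℕ} {B : Finset (Finset V)} {l : Finset V}

/-- the lines through `Z` other than `l` -/
def lines (B : Finset (Finset V)) (l : Finset V) (Z : V) : Finset (Finset V) :=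
  (thru B Z).erase l

omit [Fintype V] in
theorem mem_lines {Z : V} {a : Finset V} : a ∈ lines B l Z ↔ Line B l Z a := by
  rw [lines, mem_erase, mem_thru, Line]
  tauto

variable (hB : Plane n B) (hl : l ∈ B) (hn : 2 ≤ n)

include hB hl hn

theorem card_lines {Z : V} (hZ : Z ∈ l) : (lines B l Z).card = n := by
  rw [lines, card_erase_of_mem (mem_thru.2 ⟨hl, hZ⟩), hB.card_thru (by omega)]
  rfl

/-- numbering of the lines through `Z` -/
noncomputable def num {Z : V} (hZ : Z ∈ l) : lines B l Z ≃ Fin n :=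
  Finset.equivFinOfCardEq (card_lines hB hl hn hZ)

omit hn in
theorem exists_line {Z x : V} (hZ : Z ∈ l) (hx : x ∉ l) : ∃ b : lines B l Z, x ∈ b.1 := by
  have hne : Z ≠ x := by
    rintro rfl
    exact hx hZ
  obtain ⟨b, h1, h2, h3⟩ := hB.join hne
  exact ⟨⟨b, mem_lines.2 ⟨h1, h2, fun e => hx (e ▸ h3)⟩⟩, h3⟩

/-- the parallel classes -/
noncomputable def cls (Z : {Z : V // Z ∈ l}) (x : {x : V // x ∉ l}) : Fin n :=
  num hB hl hn Z.2 (exists_line hB hl Z.2 x.2).choose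

theorem mem_cls (Z : {Z : V // Z ∈ l}) (x : {x : V // x ∉ l}) :
    x.1 ∈ ((num hB hl hn Z.2).symm (cls hB hl hn Z x)).1 := by
  rw [cls, Equiv.symm_apply_apply]
  exact (exists_line hB hl Z.2 x.2).choose_spec

theorem cls_eq (Z : {Z : V // Z ∈ l}) (x : {x : V // x ∉ l}) (b : lines B l Z.1)
    (hx : x.1 ∈ b.1) : cls hB hl hn Z x = num hB hl hn Z.2 b := by
  rw [cls]
  congr 1
  have h1 := (exists_line hB hl Z.2 x.2).choose_spec
  set b' := (exists_line hB hl Z.2 x.2).choose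
  have hne : Z.1 ≠ x.1 := by
    intro e
    exact x.2 (e ▸ Z.2)
  have hb := mem_lines.1 b.2
  have hb' := mem_lines.1 b'.2
  exact Subtype.ext (hB.eq hb'.1 hb.1 hne hb'.2.1 h1 hb.2.1 hx)

theorem mem_iff (Z : {Z : V // Z ∈ l}) (x : {x : V // x ∉ l}) (i : Fin n) :
    x.1 ∈ ((num hB hl hn Z.2).symm i).1 ↔ cls hB hl hn Z x = i := by
  constructor
  · intro hx
    rw [cls_eq hB hl hn Z x _ hx, Equiv.apply_symm_apply]
  · rintro rfl
    exact mem_cls hB hl hn Z x

theorem oa : OA (cls hB hl hn) := by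
  intro Z Z' hZZ
  have hne : Z.1 ≠ Z'.1 := fun e => hZZ (Subtype.ext e)
  have hlines : ∀ (b : lines B l Z.1) (b' : lines B l Z'.1), b.1 ≠ b'.1 := by
    intro b b' hbb
    have hb := mem_lines.1 b.2
    have hb' := mem_lines.1 b'.2
    rw [← hbb] at hb'
    exact hb.2.2 (hB.eq hb.1 hl hne hb.2.1 hb'.2.1 Z.2 Z'.2)
  constructor
  · intro x y hxy
    simp only [Prod.mk.injEq] at hxy
    by_contra hxy'
    have hxy'' : x.1 ≠ y.1 := fun e => hxy' (Subtype.ext e)
    have h1 := mem_cls hB hl hn Z x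
    have h2 := mem_cls hB hl hn Z' x
    have h3 := mem_cls hB hl hn Z y
    have h4 := mem_cls hB hl hn Z' y
    rw [← hxy.1] at h3
    rw [← hxy.2] at h4
    set b := (num hB hl hn Z.2).symm (cls hB hl hn Z x)
    set b' := (num hB hl hn Z'.2).symm (cls hB hl hn Z' x)
    exact hlines b b' (hB.eq (mem_lines.1 b.2).1 (mem_lines.1 b'.2).1 hxy'' h1 h3 h2 h4)
  · rintro ⟨i, j⟩
    set b := (num hB hl hn Z.2).symm i with hbdef
    set b' := (num hB hl hn Z'.2).symm j with hbdef'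
    have hb := mem_lines.1 b.2
    have hb' := mem_lines.1 b'.2
    obtain ⟨x, hx, hx'⟩ := hB.meet (by omega) hb.1 hb'.1
    have hxl : x ∉ l := by
      intro hxl
      have h1 : x = Z.1 := by
        by_contra h2
        exact hb.2.2 (hB.eq hb.1 hl h2 hx hb.2.1 hxl Z.2)
      have h2 : x = Z'.1 := by
        by_contra h2
        exact hb'.2.2 (hB.eq hb'.1 hl h2 hx' hb'.2.1 hxl Z'.2)
      exact hne (h1.symm.trans h2)
    refine ⟨⟨x, hxl⟩, ?_⟩
    simp only
    rw [(mem_iff hB hl hn Z ⟨x, hxl⟩ i).1 hx, (mem_iff hB hl hn Z' ⟨x, hxl⟩ j).1 hx']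

theorem col_iff (P : {P : V // P ∈ l}) (x y : {x : V // x ∉ l}) :
    Col B P.1 x.1 y.1 ↔ cls hB hl hn P x = cls hB hl hn P y := by
  constructor
  · rintro ⟨b, h1, h2, h3, h4⟩
    have hb : b ∈ lines B l P.1 := mem_lines.2 ⟨h1, h2, fun e => x.2 (e ▸ h3)⟩
    rw [cls_eq hB hl hn P x ⟨b, hb⟩ h3, cls_eq hB hl hn P y ⟨b, hb⟩ h4]
  · intro h1
    have h2 := mem_cls hB hl hn P x
    have h3 := mem_cls hB hl hn P y
    rw [← h1] at h3
    set b := (num hB hl hn P.2).symm (cls hB hl hn P x)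
    have hb := mem_lines.1 b.2
    exact ⟨b.1, hb.1, hb.2.1, h2, h3⟩

/-- A product which is a perspectivity. -/
theorem pr_of_isProduct (Z : {Z : V // Z ∈ l}) (P Q R : Oth Z) (i j k : Fin n)
    (hR : IsProduct B ((num hB hl hn Z.2).symm i).1 ((num hB hl hn Z.2).symm j).1
      ((num hB hl hn Z.2).symm k).1 P.1.1 Q.1.1 R.1.1) :
    (pr (oa hB hl hn) P i j).trans (pr (oa hB hl hn) Q j k) = pr (oa hB hl hn) R i k := by
  ext1 x
  symm
  rw [Equiv.trans_apply]
  set y := pr (oa hB hl hn) P i j x with hy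
  set z := pr (oa hB hl hn) Q j k y with hz
  apply pr_eq
  symm
  rw [← col_iff hB hl hn]
  refine hR x.1.1 ((mem_iff hB hl hn Z x.1 i).2 x.2) y.1.1 ((mem_iff hB hl hn Z y.1 j).2 y.2)
    z.1.1 ((mem_iff hB hl hn Z z.1 k).2 z.2) ?_ ?_
  · rw [col_iff hB hl hn, hy, pr_spec (oa hB hl hn)]
  · rw [col_iff hB hl hn, hz, pr_spec (oa hB hl hn)]

theorem fails_le (Z : {Z : V // Z ∈ l}) (i j : Fin n) :
    fails (oa hB hl hn) Z i j ≤ (fail B l Z.1 ((num hB hl hn Z.2).symm i).1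
      ((num hB hl hn Z.2).symm j).1).ncard := by
  classical
  let S := ((univ.erase i).erase j).sigma fun c => badP
    (fun P : Oth Z => pr (oa hB hl hn) P i j) (fun P => pr (oa hB hl hn) P j c)
      (fun P => pr (oa hB hl hn) P i c)
  have h1 : fails (oa hB hl hn) Z i j = S.card := (card_sigma _ _).symm
  let g : (Σ _ : Fin n, Oth Z × Oth Z) → Finset V × V × V := fun s =>
    (((num hB hl hn Z.2).symm s.1).1, s.2.1.1.1, s.2.2.1.1)
  have hg : Function.Injective g := by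
    rintro ⟨c, P, Q⟩ ⟨c', P', Q'⟩ hcc
    simp only [g, Prod.mk.injEq] at hcc
    obtain ⟨h2, h3, h4⟩ := hcc
    have h5 : c = c' := (num hB hl hn Z.2).symm.injective (Subtype.ext h2)
    have h6 : P = P' := Subtype.ext (Subtype.ext h3)
    have h7 : Q = Q' := Subtype.ext (Subtype.ext h4)
    rw [h5, h6, h7]
  rw [h1, ← card_image_of_injective S hg, ← Set.ncard_coe_finset]
  apply Set.ncard_le_ncard _ (Set.toFinite _)
  intro q hq
  rw [mem_coe, mem_image] at hq
  obtain ⟨⟨c, P, Q⟩, hs, rfl⟩ := hq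
  simp only [S, mem_sigma, mem_erase, mem_univ, and_true] at hs
  obtain ⟨⟨hcj, hci⟩, hs⟩ := hs
  refine ⟨⟨mem_lines.1 ((num hB hl hn Z.2).symm c).2, ?_, ?_⟩, ⟨P.1.2, ?_⟩, ⟨Q.1.2, ?_⟩, ?_⟩
  · intro e
    exact hci ((num hB hl hn Z.2).symm.injective (Subtype.ext e))
  · intro e
    exact hcj ((num hB hl hn Z.2).symm.injective (Subtype.ext e))
  · exact fun e => P.2 (Subtype.ext e)
  · exact fun e => Q.2 (Subtype.ext e)
  · rintro ⟨R, hR, hRZ, hR'⟩
    have h2 := pr_of_isProduct hB hl hn Z P Q ⟨⟨R, hR⟩, fun e => hRZ (congrArg Subtype.val e)⟩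
      i j c hR'
    simp only [badP, mem_filter, mem_univ, true_and] at hs
    exact hs ⟨_, h2⟩

omit [DecidableEq V] in
/-- **Planes whose order is not a prime power.** -/
theorem plane_tail (hnp : ¬ IsPrimePow n) (N : ℕ) :
    {Z | Z ∈ l ∧ ∃ a b, Line B l Z a ∧ Line B l Z b ∧ a ≠ b ∧ (fail B l Z a b).ncard ≤ N}.ncard *
      n ^ 2 ≤ n ^ 2 + 68 * N := by
  classical
  have hn6 : 6 ≤ n := by
    by_contra hlt
    push Not at hlt
    interval_cases n
    · exact hnp (Nat.prime_two.isPrimePow)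
    · exact hnp (Nat.prime_three.isPrimePow)
    · exact hnp ((isPrimePow_nat_iff 4).2 ⟨2, 2, Nat.prime_two, by norm_num, by norm_num⟩)
    · exact hnp (Nat.prime_five.isPrimePow)
  have hK : Fintype.card {Z : V // Z ∈ l} = n + 1 := by
    rw [Fintype.card_coe, hB.2.1 l hl]
  have h1 := tail (oa hB hl hn) hn6 (Fintype.card_fin n) hK hnp N
  refine le_trans (Nat.mul_le_mul_right _ ?_) h1
  rw [← Set.ncard_coe_finset]
  refine Set.ncard_le_ncard_of_injOn (fun Z => if hZ : Z ∈ l then (⟨Z, hZ⟩ : {Z : V // Z ∈ l}) else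
    ⟨(card_pos.1 (by rw [hB.2.1 l hl]; omega) : l.Nonempty).choose,
      (card_pos.1 (by rw [hB.2.1 l hl]; omega) : l.Nonempty).choose_spec⟩) ?_ ?_ (Set.toFinite _)
  · rintro Z ⟨hZ, a, b, ha, hb, hab, hN⟩
    simp only [dif_pos hZ, coe_filter, mem_univ, true_and, Set.mem_ofPred_eq]
    have ha' : a ∈ lines B l Z := mem_lines.2 ha
    have hb' : b ∈ lines B l Z := mem_lines.2 hb
    refine ⟨num hB hl hn hZ ⟨a, ha'⟩, num hB hl hn hZ ⟨b, hb'⟩, ?_, ?_⟩
    · intro e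
      have h2 := (num hB hl hn hZ).injective e
      exact hab (congrArg Subtype.val h2).symm
    · have h2 := fails_le hB hl hn ⟨Z, hZ⟩ (num hB hl hn hZ ⟨a, ha'⟩) (num hB hl hn hZ ⟨b, hb'⟩)
      simp only [Equiv.symm_apply_apply] at h2
      exact h2.trans hN
  · rintro Z ⟨hZ, _⟩ Z' ⟨hZ', _⟩ hZZ
    simp only [dif_pos hZ, dif_pos hZ'] at hZZ
    exact congrArg Subtype.val hZZ

end Pool.Agent.V7H30.TP
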