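import Pool.Agent.V7H30.TP.Group

/-!
# Regular groups of permutations
-/

set_option autoImplicit false

namespace Pool.Agent.V7H30.TP

open Finset Equiv

variable {A B C ι : Type} [Fintype ι]

/-- The group `H` of permutations is regular. -/
def Reg (H : Subgroup (Perm A)) : Prop :=
  (∀ g ∈ H, ∀ x, g x = x → g = 1) ∧ ∀ x y, ∃ g ∈ H, g x = y

theorem Reg.eq {H : Subgroup (Perm A)} (h : Reg H) {g g' : Perm A} (hg : g ∈ H) (hg' : g' ∈ H)
    {x : A} (hx : g x = g' x) : g = g' := by
  have h1 := h.1 (g'⁻¹ * g) (H.mul_mem (H.inv_mem hg') hg) x (by simp [hx])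
  rwa [inv_mul_eq_one, eq_comm] at h1

/-- The centralizer of a regular group is regular. -/
theorem Reg.centralizer [Finite A] {H : Subgroup (Perm A)} (h : Reg H) :
    Reg (Subgroup.centralizer (H : Set (Perm A))) := by
  refine ⟨?_, ?_⟩
  · intro c hc x hx
    rw [Subgroup.mem_centralizer_iff] at hc
    ext z
    obtain ⟨g, hg, rfl⟩ := h.2 x z
    have h1 := congrArg (fun e : Perm A => e x) (hc g hg)
    simp only [Perm.mul_apply] at h1
    rw [Perm.one_apply, ← h1, hx]
  · intro x y
    choose f hf hfx using h.2 x
    have hinj : Function.Injective fun z => f z y := by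
      intro z z' hz
      have h1 := h.eq (hf z) (hf z') hz
      rw [← hfx z, h1, hfx z']
    let c : Perm A := Equiv.ofBijective _ (Finite.injective_iff_bijective.1 hinj)
    refine ⟨c, ?_, ?_⟩
    · rw [Subgroup.mem_centralizer_iff]
      intro g hg
      ext z
      simp only [Perm.mul_apply]
      change g (f z y) = f (g z) y
      have h1 : g * f z = f (g z) := by
        refine h.eq (x := x) (H.mul_mem hg (hf z)) (hf _) ?_
        rw [Perm.mul_apply, hfx, hfx]
      rw [← h1]
      rfl
    · change f x y = y
      have h1 : f x = 1 := h.1 _ (hf x) x (hfx x)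
      rw [h1]
      rfl

theorem reg_of_card [Fintype A] {H : Subgroup (Perm A)} (h : ∀ g ∈ H, ∀ x, g x = x → g = 1)
    {S : Finset (Perm A)} (hS : ∀ g ∈ S, g ∈ H) (hc : Fintype.card A < 2 * S.card) : Reg H := by
  classical
  refine ⟨h, fun x y => ?_⟩
  by_contra hne
  push Not at hne
  have hinj : ∀ z, Set.InjOn (fun g : Perm A => g z) S := by
    intro z g hg g' hg' hgg
    have h1 := h (g'⁻¹ * g) (H.mul_mem (H.inv_mem (hS _ (by exact_mod_cast hg')))
      (hS _ (by exact_mod_cast hg))) z (by
        have h2 : g z = g' z := hgg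
        rw [Perm.mul_apply, h2]
        simp)
    rw [inv_mul_eq_one, eq_comm] at h1
    exact h1
  have h1 : Disjoint (S.image fun g => g x) (S.image fun g => g y) := by
    rw [Finset.disjoint_left]
    intro z h1 h2
    rw [mem_image] at h1 h2
    obtain ⟨g, hg, h3⟩ := h1
    obtain ⟨g', hg', h4⟩ := h2
    refine hne (g'⁻¹ * g) (H.mul_mem (H.inv_mem (hS _ hg')) (hS _ hg)) ?_
    rw [Perm.mul_apply, h3, ← h4]
    simp
  have h2 := card_le_univ ((S.image fun g => g x) ∪ (S.image fun g => g y))
  rw [card_union_of_disjoint h1, card_image_of_injOn (hinj x), card_image_of_injOn (hinj y)] at h2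
  omega

open Classical in
/-- **Families of bijections which are almost closed under composition.** -/
theorem exists_reg [Fintype A] (t : ι → A ≃ B) (u : ι → B ≃ C) (w : ι → A ≃ C)
    (hA : Fintype.card A = Fintype.card ι) (hn : 0 < Fintype.card ι)
    (ht : Function.Injective t) (hu : Function.Injective u)
    (hw : ∀ k k' x, w k x = w k' x → k = k')
    (hbad : 16 * (badP t u w).card ≤ Fintype.card ι ^ 2) :
    ∃ H : Subgroup (Perm A), Reg H ∧
      (univ.filter fun p : ι × ι => (t p.2).trans (t p.1).symm ∉ H).card ≤
        4 * (badP t u w).card := by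
  have hne : Nonempty ι := Fintype.card_pos_iff.1 hn
  have hneA : Nonempty A := Fintype.card_pos_iff.1 (hA ▸ hn)
  have hw' : Function.Injective w := by
    intro k k' hkk
    obtain ⟨x⟩ := hneA
    exact hw k k' x (by rw [hkk])
  refine ⟨stab t u w ht hu hw' hbad hn, ?_, ?_⟩
  · have h0 := quot_bad t u w ht hu hw' hbad hn
    -- some index with many good partners
    obtain ⟨i, hi⟩ : ∃ i, Fintype.card ι < 2 * (univ.filter fun j =>
        (t j).trans (t i).symm ∈ stab t u w ht hu hw' hbad hn).card := by
      by_contra hcon
      push Not at hcon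
      have h1 : (univ.filter fun p : ι × ι => (t p.2).trans (t p.1).symm ∉
          stab t u w ht hu hw' hbad hn).card = ∑ i, (univ.filter fun j =>
            (t j).trans (t i).symm ∉ stab t u w ht hu hw' hbad hn).card := by
        rw [← card_sigma]
        refine card_bij (fun p _ => ⟨p.1, p.2⟩) ?_ ?_ ?_
        · intro p hp
          simpa using hp
        · intro p _ q _ hpq
          simp only [Sigma.mk.injEq, heq_eq_eq] at hpq
          exact Prod.ext hpq.1 hpq.2
        · rintro ⟨a, b⟩ hb
          exact ⟨(a, b), by simpa using hb, rfl⟩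
      have h2 : ∀ i, Fintype.card ι ≤ 2 * (univ.filter fun j =>
          (t j).trans (t i).symm ∉ stab t u w ht hu hw' hbad hn).card := by
        intro i
        have h3 := card_filter_add_card_filter_not (s := (univ : Finset ι)) (fun j =>
          (t j).trans (t i).symm ∈ stab t u w ht hu hw' hbad hn)
        rw [card_univ] at h3
        have h4 := hcon i
        omega
      have h3 : ∑ _i : ι, Fintype.card ι ≤ ∑ i, 2 * (univ.filter fun j =>
          (t j).trans (t i).symm ∉ stab t u w ht hu hw' hbad hn).card :=
        sum_le_sum fun i _ => h2 i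
      rw [← mul_sum, ← h1, sum_const, smul_eq_mul, card_univ] at h3
      nlinarith
    refine reg_of_card ?_ (S := (univ.filter fun j =>
        (t j).trans (t i).symm ∈ stab t u w ht hu hw' hbad hn).image
          fun j => (t j).trans (t i).symm) ?_ ?_
    · intro g hg x hx
      have hg' : Fintype.card ι < 2 * (dom w g).card := hg
      have h1 : (dom w g).Nonempty := card_pos.1 (by omega)
      obtain ⟨k, hk⟩ := h1
      obtain ⟨k', hk'⟩ := (mem_dom w).1 hk
      have h2 : w k x = w k' x := by
        rw [← hk', Equiv.trans_apply, hx]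
      have h3 := hw _ _ _ h2
      subst h3
      ext z
      have h4 := congrArg (fun e : A ≃ C => (w k).symm (e z)) hk'
      simpa using h4
    · intro g hg
      rw [mem_image] at hg
      obtain ⟨j, hj, rfl⟩ := hg
      exact (mem_filter.1 hj).2
    · rw [card_image_of_injective, hA]
      · exact hi
      · intro j j' hjj
        apply ht
        ext x
        have h4 := congrArg (fun e : A ≃ A => t i (e x)) hjj
        simpa using h4
  · exact quot_bad t u w ht hu hw' hbad hn

end Pool.Agent.V7H30.TP
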