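import Pool.Agent.V7H30.TP.Centre

/-!
# The number of centres with few failures
-/

set_option autoImplicit false

namespace Pool.Agent.V7H30.TP

open Finset Equiv

variable {K Pt F : Type} {L : K → Pt → F} (h : OA L) [Fintype K] [Fintype F]
  [DecidableEq K] [DecidableEq F]

/-- There are two lines through `Z` for which at most `N` products fail. -/
def Few (Z : K) (N : ℕ) : Prop := ∃ a b, b ≠ a ∧ fails h Z a b ≤ N

open Classical in
/-- **The number of centres with few failures.** -/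
theorem tail {n : ℕ} (hn : 6 ≤ n) (hF : Fintype.card F = n) (hK : Fintype.card K = n + 1)
    (hnp : ¬ IsPrimePow n) (N : ℕ) :
    (univ.filter fun Z => Few h Z N).card * n ^ 2 ≤ n ^ 2 + 68 * N := by
  by_contra hcon
  push Not at hcon
  obtain ⟨m, rfl⟩ : ∃ m, n = m + 6 := ⟨n - 6, by omega⟩
  set r := (univ.filter fun Z => Few h Z N).card with hr
  have hrle : r ≤ m + 7 := by
    rw [hr]
    refine (card_le_univ _).trans ?_
    rw [hK]
  have hpos : 0 < (m + 6) ^ 2 := by positivity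
  have hr2 : 2 ≤ r := by
    by_contra hlt
    push Not at hlt
    have h1 : r * (m + 6) ^ 2 ≤ 1 * (m + 6) ^ 2 := Nat.mul_le_mul_right _ (by omega)
    omega
  have hN : 68 * N < (m + 6) * (m + 6) ^ 2 := by
    have h1 : r * (m + 6) ^ 2 ≤ (m + 7) * (m + 6) ^ 2 := Nat.mul_le_mul_right _ hrle
    have h2 : (m + 7) * (m + 6) ^ 2 = (m + 6) ^ 2 + (m + 6) * (m + 6) ^ 2 := by ring
    omega
  have hc : ∀ Z : {Z : K // Few h Z N}, ∃ (a : F) (H : Subgroup (Perm (On L Z.1 a))), Reg H ∧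
      ∑ p : Oth Z.1 × Oth Z.1, (dis h H p.1 p.2).card ≤ 7 * N := by
    intro Z
    obtain ⟨a, b, hab, hf⟩ := Z.2
    obtain ⟨H, h1, h2⟩ := centre h Z.1 hn hF hK hab (by
      have h4 : m + 6 - 2 = m + 4 := rfl
      rw [h4]
      have h5 : 16 * ((m + 6) * (m + 6) ^ 2) ≤ 68 * ((m + 6) ^ 2 * (m + 4)) := by
        have h6 : 16 * (m + 6) ≤ 68 * (m + 4) := by omega
        calc 16 * ((m + 6) * (m + 6) ^ 2) = (m + 6) ^ 2 * (16 * (m + 6)) := by ring
          _ ≤ (m + 6) ^ 2 * (68 * (m + 4)) := Nat.mul_le_mul_left _ h6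
          _ = _ := by ring
      omega)
    refine ⟨a, H, h1, ?_⟩
    rw [sum_dis]
    exact h2.trans (Nat.mul_le_mul_left _ hf)
  choose a H hH hS using hc
  -- the disagreements with the class `X`
  let g : ∀ Z : {Z : K // Few h Z N}, K → ℕ := fun Z X =>
    if hne : X ≠ Z.1 then ∑ P : Oth Z.1, (dis h (H Z) P ⟨X, hne⟩).card else 0
  let S : {Z : K // Few h Z N} → ℕ := fun Z =>
    ∑ p : Oth Z.1 × Oth Z.1, (dis h (H Z) p.1 p.2).card
  have hgS : ∀ Z, ∑ X : {Z : K // Few h Z N}, g Z X.1 ≤ S Z := by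
    intro Z
    have h1 : ∑ X : {Z : K // Few h Z N}, g Z X.1 ≤ ∑ X : K, g Z X := by
      rw [← sum_subtype (univ.filter fun X => Few h X N) (by simp) (g Z)]
      exact sum_le_sum_of_subset (subset_univ _)
    have h2 : ∑ X : K, g Z X = ∑ X : Oth Z.1, g Z X.1 := by
      rw [← sum_subtype (univ.filter fun X => X ≠ Z.1) (by simp) (g Z)]
      symm
      apply sum_subset (subset_univ _)
      intro X _ hX
      simp only [mem_filter, mem_univ, true_and, not_not] at hX
      simp [g, hX]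
    have h3 : ∑ X : Oth Z.1, g Z X.1 = S Z := by
      have h4 : ∀ X : Oth Z.1, g Z X.1 = ∑ P : Oth Z.1, (dis h (H Z) P X).card := by
        intro X
        simp only [g]
        rw [dif_pos X.2]
      rw [sum_congr rfl fun X _ => h4 X]
      simp only [S]
      rw [Fintype.sum_prod_type, sum_comm]
    omega
  have hrcard : Fintype.card {Z : K // Few h Z N} = r := by
    rw [Fintype.card_subtype, hr]
  -- a pair of centres
  have hoff : (univ : Finset {Z : K // Few h Z N}).offDiag.card = r * r - r := by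
    rw [offDiag_card, card_univ, hrcard]
  have hrr : r < r * r := by nlinarith
  obtain ⟨⟨Z, X⟩, hZX, hpair⟩ := exists_mul_le
    (s := (univ : Finset {Z : K // Few h Z N}).offDiag) (card_pos.1 (by omega))
    (fun p => g p.1 p.2.1 + g p.2 p.1.1) (T := 2 * ∑ Z, S Z) (by
      refine (sum_le_sum_of_subset (subset_univ _)).trans ?_
      rw [sum_add_distrib, Fintype.sum_prod_type, Fintype.sum_prod_type, two_mul]
      refine Nat.add_le_add (sum_le_sum fun Z _ => hgS Z) ?_
      simp only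
      rw [sum_comm]
      exact sum_le_sum fun Z _ => hgS Z)
  rw [mem_offDiag] at hZX
  have hne : Z.1 ≠ X.1 := fun e => hZX.2.2 (Subtype.ext e)
  simp only at hpair
  rw [hoff] at hpair
  have hSsum : ∑ Z, S Z ≤ r * (7 * N) := by
    refine (sum_le_sum fun Z _ => hS Z).trans ?_
    rw [sum_const, card_univ, hrcard, smul_eq_mul]
  have hkey : (r - 1) * (g Z X.1 + g X Z.1) ≤ 14 * N := by
    have h1 : r * ((r - 1) * (g Z X.1 + g X Z.1)) ≤ r * (14 * N) := by
      have h2 : r * (r - 1) = r * r - r := by rw [Nat.mul_sub, mul_one]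
      calc r * ((r - 1) * (g Z X.1 + g X Z.1))
          = (r * (r - 1)) * (g Z X.1 + g X Z.1) := by ring
        _ ≤ 2 * ∑ Z, S Z := by
            rw [h2]
            exact hpair
        _ ≤ 2 * (r * (7 * N)) := Nat.mul_le_mul_left _ hSsum
        _ = _ := by ring
    exact Nat.le_of_mul_le_mul_left h1 (by omega)
  -- the good classes
  let cnt : K → ℕ := fun P => if hP : P ≠ Z.1 ∧ P ≠ X.1 then
    (dis h (H Z) ⟨P, hP.1⟩ ⟨X.1, hne.symm⟩).card + (dis h (H X) ⟨P, hP.2⟩ ⟨Z.1, hne⟩).card else 0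
  let U : Finset K := (univ.erase Z.1).erase X.1
  have hU : U.card = m + 5 := by
    simp only [U]
    rw [card_erase_of_mem (mem_erase.2 ⟨hne.symm, mem_univ _⟩), card_erase_of_mem (mem_univ _),
      card_univ, hK]
    rfl
  let G : Finset K := U.filter fun P => 2 * cnt P < m + 6
  let Bd : Finset K := U.filter fun P => ¬ 2 * cnt P < m + 6
  have hGB : G.card + Bd.card = m + 5 := by
    rw [← hU]
    exact card_filter_add_card_filter_not _
  have hBd : Bd.card * (m + 6) ≤ 2 * (g Z X.1 + g X Z.1) := by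
    have h1 : ∑ P ∈ Bd, (m + 6) ≤ ∑ P ∈ Bd, 2 * cnt P :=
      sum_le_sum fun P hP => not_lt.1 (mem_filter.1 hP).2
    rw [sum_const, smul_eq_mul, ← mul_sum] at h1
    refine h1.trans (Nat.mul_le_mul_left _ ?_)
    have h2 : ∑ P ∈ Bd, cnt P ≤ ∑ P ∈ U, cnt P := sum_le_sum_of_subset (filter_subset _ _)
    refine h2.trans ?_
    let c₁ : K → ℕ := fun P => if hP : P ≠ Z.1 then
      (dis h (H Z) ⟨P, hP⟩ ⟨X.1, hne.symm⟩).card else 0
    let c₂ : K → ℕ := fun P => if hP : P ≠ X.1 then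
      (dis h (H X) ⟨P, hP⟩ ⟨Z.1, hne⟩).card else 0
    have h3 : ∀ P ∈ U, cnt P = c₁ P + c₂ P := by
      intro P hP
      have hP1 : P ≠ X.1 := (mem_erase.1 hP).1
      have hP2 : P ≠ Z.1 := (mem_erase.1 (mem_erase.1 hP).2).1
      simp only [cnt, c₁, c₂]
      rw [dif_pos ⟨hP2, hP1⟩, dif_pos hP2, dif_pos hP1]
    rw [sum_congr rfl h3, sum_add_distrib]
    refine Nat.add_le_add ?_ ?_
    · have h4 : ∑ P ∈ U, c₁ P ≤ ∑ P ∈ univ.filter (fun P => P ≠ Z.1), c₁ P := by
        refine sum_le_sum_of_subset ?_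
        intro P hP
        rw [mem_filter]
        exact ⟨mem_univ _, (mem_erase.1 (mem_erase.1 hP).2).1⟩
      refine h4.trans (le_of_eq ?_)
      rw [sum_subtype (p := fun P => P ≠ Z.1) (univ.filter fun P => P ≠ Z.1) (by simp) c₁]
      simp only [g]
      rw [dif_pos hne.symm]
      refine sum_congr rfl fun P _ => ?_
      simp only [c₁]
      rw [dif_pos P.2]
    · have h4 : ∑ P ∈ U, c₂ P ≤ ∑ P ∈ univ.filter (fun P => P ≠ X.1), c₂ P := by
        refine sum_le_sum_of_subset ?_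
        intro P hP
        rw [mem_filter]
        exact ⟨mem_univ _, (mem_erase.1 hP).1⟩
      refine h4.trans (le_of_eq ?_)
      rw [sum_subtype (p := fun P => P ≠ X.1) (univ.filter fun P => P ≠ X.1) (by simp) c₂]
      simp only [g]
      rw [dif_pos hne]
      refine sum_congr rfl fun P _ => ?_
      simp only [c₂]
      rw [dif_pos P.2]
  apply hnp
  rw [← hF]
  refine isPrimePow_of_two h hne (by omega) (hH Z) (hH X) G ?_ ?_
  · intro P hP
    obtain ⟨hP1, hP2⟩ := mem_filter.1 hP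
    have hPX : P ≠ X.1 := (mem_erase.1 hP1).1
    have hPZ : P ≠ Z.1 := (mem_erase.1 (mem_erase.1 hP1).2).1
    refine ⟨hPZ, hPX, ?_⟩
    simp only [cnt] at hP2
    rw [dif_pos ⟨hPZ, hPX⟩] at hP2
    omega
  · rw [hF]
    by_contra hlt
    push Not at hlt
    have h1 : m + 5 ≤ 2 * Bd.card := by omega
    have h2 : (m + 5) * (m + 6) ≤ 4 * (g Z X.1 + g X Z.1) := by
      calc (m + 5) * (m + 6) ≤ (2 * Bd.card) * (m + 6) := Nat.mul_le_mul_right _ h1
        _ = 2 * (Bd.card * (m + 6)) := by ring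
        _ ≤ 2 * (2 * (g Z X.1 + g X Z.1)) := Nat.mul_le_mul_left _ hBd
        _ = _ := by ring
    have h3 : (r - 1) * ((m + 5) * (m + 6)) ≤ 56 * N := by
      calc (r - 1) * ((m + 5) * (m + 6))
          ≤ (r - 1) * (4 * (g Z X.1 + g X Z.1)) := Nat.mul_le_mul_left _ h2
        _ = 4 * ((r - 1) * (g Z X.1 + g X Z.1)) := by ring
        _ ≤ 4 * (14 * N) := Nat.mul_le_mul_left _ hkey
        _ = _ := by ring
    obtain ⟨r', hr'⟩ : ∃ r', r = r' + 1 := ⟨r - 1, by omega⟩
    rw [hr'] at hcon h3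
    simp only [Nat.add_sub_cancel] at h3
    have h4 : 5 * (m + 6) ^ 2 ≤ 6 * ((m + 5) * (m + 6)) := by nlinarith
    have h5 : r' * (5 * (m + 6) ^ 2) ≤ 6 * (56 * N) := by
      calc r' * (5 * (m + 6) ^ 2) ≤ r' * (6 * ((m + 5) * (m + 6))) := Nat.mul_le_mul_left _ h4
        _ = 6 * (r' * ((m + 5) * (m + 6))) := by ring
        _ ≤ 6 * (56 * N) := Nat.mul_le_mul_left _ h3
    have h6 : (r' + 1) * (m + 6) ^ 2 = r' * (m + 6) ^ 2 + (m + 6) ^ 2 := by ring
    have h7 : r' * (5 * (m + 6) ^ 2) = 5 * (r' * (m + 6) ^ 2) := by ring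
    omega

end Pool.Agent.V7H30.TP
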