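import Pool.Agent.V7H30.TP.Net

/-!
# Two centres
-/

set_option autoImplicit false

namespace Pool.Agent.V7H30.TP

open Finset Equiv

theorem isPrimePow_of_orders {G : Type} [Group G] [Finite G] (hn : 2 ≤ Nat.card G)
    (h : ∀ x y : G, x ≠ 1 → y ≠ 1 → orderOf x = orderOf y) : IsPrimePow (Nat.card G) := by
  have key : ∀ q : ℕ, q.Prime → q ∣ Nat.card G → ∃ x : G, orderOf x = q := by
    intro q hq hd
    have : Fact q.Prime := ⟨hq⟩
    exact exists_prime_orderOf_dvd_card' q hd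
  have hp : (Nat.minFac (Nat.card G)).Prime := Nat.minFac_prime (by omega)
  obtain ⟨x, hx⟩ := key _ hp (Nat.minFac_dvd _)
  have hx1 : x ≠ 1 := by
    rintro rfl
    rw [orderOf_one] at hx
    exact hp.one_lt.ne hx
  have h1 := Nat.eq_prime_pow_of_unique_prime_dvd (n := Nat.card G)
    (p := Nat.minFac (Nat.card G)) (by omega) (by
      intro q hq hd
      obtain ⟨y, hy⟩ := key q hq hd
      have hy1 : y ≠ 1 := by
        rintro rfl
        rw [orderOf_one] at hy
        exact hq.one_lt.ne hy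
      rw [← hx, ← hy]
      exact h y x hy1 hx1)
  rw [isPrimePow_nat_iff]
  refine ⟨_, _, hp, ?_, h1.symm⟩
  by_contra h2
  have h3 : (Nat.card G).primeFactorsList.length = 0 := by omega
  rw [h3, pow_zero] at h1
  omega

variable {K Pt F : Type} {L : K → Pt → F} (h : OA L) {Z X : K} [Fintype F] {a a' : F}
  {H : Subgroup (Perm (On L Z a))} {H' : Subgroup (Perm (On L X a'))}

theorem Reg.natCard {A : Type} {E : Subgroup (Perm A)} (hE : Reg E) (x : A) :
    Nat.card E = Nat.card A := by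
  refine Nat.card_congr (Equiv.ofBijective (fun g : E => g.1 x) ⟨?_, ?_⟩)
  · intro g g' hg
    exact Subtype.ext (hE.eq g.2 g'.2 hg)
  · intro y
    obtain ⟨g, hg, hgy⟩ := hE.2 x y
    exact ⟨⟨g, hg⟩, hgy⟩

omit [Fintype F] in
theorem act_pow (P : Oth Z) (e : Perm (On L Z a)) (k : ℕ) :
    act h P (e ^ k) = act h P e ^ k := by
  induction k with
  | zero => rw [pow_zero, pow_zero, act_one]
  | succ k ih => rw [pow_succ, pow_succ, act_mul, ih]

omit [Fintype F] in
theorem act_eq_one (hH : Reg H) (P : Oth Z) {e : Perm (On L Z a)} (he : e ∈ H) {x : On L Z a}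
    (hx : act h P e (L P.1 x.1) = L P.1 x.1) : e = 1 := by
  rw [act_lam] at hx
  exact hH.1 e he x ((lam h P a).injective hx)

/-- **Two centres.** -/
theorem isPrimePow_of_two (hZX : Z ≠ X) (hn : 2 ≤ Fintype.card F) (hH : Reg H) (hH' : Reg H')
    (G : Finset K) (hG : ∀ P ∈ G, ∃ (hPZ : P ≠ Z) (hPX : P ≠ X),
      2 * (dis h H ⟨P, hPZ⟩ ⟨X, hZX.symm⟩).card + 2 * (dis h H' ⟨P, hPX⟩ ⟨Z, hZX⟩).card <
      Fintype.card F) (hc : Fintype.card F - 1 < 2 * G.card) : IsPrimePow (Fintype.card F) := by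
  classical
  have hfA : Finite (On L Z a) := Finite.of_equiv F (lam h ⟨X, hZX.symm⟩ a).symm
  have hfA' : Finite (On L X a') := Finite.of_equiv F (lam h ⟨Z, hZX⟩ a').symm
  set E := Subgroup.centralizer (H : Set (Perm (On L Z a))) with hEdef
  set E' := Subgroup.centralizer (H' : Set (Perm (On L X a'))) with hEdef'
  have hE : Reg E := hH.centralizer
  have hE' : Reg E' := hH'.centralizer
  -- the base point
  obtain ⟨x₀, hx₀, hx₀'⟩ := h.exists hZX a a'
  set x : On L Z a := ⟨x₀, hx₀⟩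
  set x' : On L X a' := ⟨x₀, hx₀'⟩
  have hcE : Nat.card E = Fintype.card F := by
    rw [hE.natCard x, Nat.card_congr (lam h ⟨X, hZX.symm⟩ a), Nat.card_eq_fintype_card]
  have hcE' : Nat.card E' = Fintype.card F := by
    rw [hE'.natCard x', Nat.card_congr (lam h ⟨Z, hZX⟩ a'), Nat.card_eq_fintype_card]
  have hfE : Finite E := Nat.finite_of_card_ne_zero (by omega)
  have hfE' : Finite E' := Nat.finite_of_card_ne_zero (by omega)
  have : Fintype E' := Fintype.ofFinite _
  -- the correspondence of the elements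
  have hφ : ∀ (e : E) (P : K), ∃ f : E', ∀ (hPZ : P ≠ Z) (hPX : P ≠ X),
      act h ⟨P, hPX⟩ f.1 (L P x₀) = act h ⟨P, hPZ⟩ e.1 (L P x₀) := by
    intro e P
    by_cases hPZ : P ≠ Z
    · by_cases hPX : P ≠ X
      · obtain ⟨f, hf, hfx⟩ := hE'.2 x' ((lam h ⟨P, hPX⟩ a').symm (L P (e.1 x).1))
        refine ⟨⟨f, hf⟩, fun _ _ => ?_⟩
        have h1 := act_lam h ⟨P, hPX⟩ f x'
        have h2 := act_lam h ⟨P, hPZ⟩ e.1 x
        rw [h1, h2, hfx, ← lam_apply h ⟨P, hPX⟩ a', Equiv.apply_symm_apply]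
      · exact ⟨1, fun _ h' => absurd h' hPX⟩
    · exact ⟨1, fun h' _ => absurd h' hPZ⟩
  choose φ hφ using hφ
  -- orders
  have hord : ∀ (e : E), ∀ P ∈ G, orderOf (φ e P) = orderOf e := by
    intro e P hP
    obtain ⟨hPZ, hPX, hgood⟩ := hG P hP
    have h1 := hφ e P hPZ hPX
    have hcomm : ∀ k : ℕ, act h ⟨P, hPX⟩ ((φ e P).1 ^ k) (L P x₀) =
        act h ⟨P, hPZ⟩ (e.1 ^ k) (L P x₀) := by
      intro k
      induction k with
      | zero => rw [pow_zero, pow_zero, act_one, act_one]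
      | succ k ih =>
        have h2 : act h ⟨P, hPX⟩ ((φ e P).1 ^ (k + 1)) (L P x₀) =
            act h ⟨P, hPX⟩ (φ e P).1 (act h ⟨P, hPX⟩ ((φ e P).1 ^ k) (L P x₀)) := by
          rw [pow_succ', act_mul]; rfl
        have h3 : act h ⟨P, hPZ⟩ (e.1 ^ (k + 1)) (L P x₀) =
            act h ⟨P, hPZ⟩ (e.1 ^ k) (act h ⟨P, hPZ⟩ e.1 (L P x₀)) := by
          rw [pow_succ, act_mul]; rfl
        rw [h2, ih, h3, ← h1]
        exact (act_comm h hZX hPZ hPX hgood (E.pow_mem e.2 k) (φ e P).2 _).symm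
    rw [orderOf_eq_orderOf_iff]
    intro k
    have h2 := hcomm k
    constructor
    · intro h3
      have h4 : (φ e P).1 ^ k = 1 := by
        have h5 := congrArg Subtype.val h3
        simpa using h5
      rw [h4, act_one, Perm.one_apply] at h2
      have h5 := act_eq_one h hE ⟨P, hPZ⟩ (E.pow_mem e.2 k) (x := x) h2.symm
      exact Subtype.ext (by simpa using h5)
    · intro h3
      have h4 : e.1 ^ k = 1 := by
        have h5 := congrArg Subtype.val h3
        simpa using h5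
      rw [h4, act_one, Perm.one_apply] at h2
      have h5 := act_eq_one h hE' ⟨P, hPX⟩ (E'.pow_mem (φ e P).2 k) (x := x') h2
      exact Subtype.ext (by simpa using h5)
  -- different classes give different elements
  have hinj : ∀ e : E, e ≠ 1 → Set.InjOn (φ e) G := by
    intro e he P hP Q hQ hPQ
    by_contra hne
    apply he
    obtain ⟨hPZ, hPX, _⟩ := hG P (by exact_mod_cast hP)
    obtain ⟨hQZ, hQX, _⟩ := hG Q (by exact_mod_cast hQ)
    have h1 := hφ e P hPZ hPX
    have h2 := hφ e Q hQZ hQX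
    rw [← hPQ] at h2
    have e1 := act_lam h ⟨P, hPX⟩ (φ e P).1 x'
    have e2 := act_lam h ⟨Q, hQX⟩ (φ e P).1 x'
    have e3 := act_lam h ⟨P, hPZ⟩ e.1 x
    have e4 := act_lam h ⟨Q, hQZ⟩ e.1 x
    simp only at e1 e2 e3 e4
    have h3 : ((φ e P).1 x').1 = (e.1 x).1 := by
      refine h.ext hne ?_ ?_
      · rw [← e1, ← e3]; exact h1
      · rw [← e2, ← e4]; exact h2
    have h4 : (e.1 x).1 = x₀ := by
      refine h.ext hZX ?_ ?_
      · rw [(e.1 x).2, hx₀]
      · rw [← h3, ((φ e P).1 x').2, hx₀']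
    have h5 : e.1 x = x := Subtype.ext h4
    exact Subtype.ext (hE.1 e.1 e.2 x h5)
  have hne1 : ∀ e : E, e ≠ 1 → ∀ P ∈ G, φ e P ≠ 1 := by
    intro e he P hP h1
    apply he
    have h2 := hord e P hP
    rw [h1, orderOf_one] at h2
    exact orderOf_eq_one_iff.1 h2.symm
  rw [← hcE]
  refine isPrimePow_of_orders (by omega) fun e₁ e₂ h₁ h₂ => ?_
  have hcap : ((G.image (φ e₁)) ∩ (G.image (φ e₂))).Nonempty := by
    by_contra hcon
    rw [not_nonempty_iff_eq_empty] at hcon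
    have h3 : (G.image (φ e₁)) ∪ (G.image (φ e₂)) ⊆ univ.erase 1 := by
      intro f hf
      rw [mem_union, mem_image, mem_image] at hf
      rw [mem_erase]
      rcases hf with ⟨P, hP, rfl⟩ | ⟨P, hP, rfl⟩
      · exact ⟨hne1 _ h₁ P hP, mem_univ _⟩
      · exact ⟨hne1 _ h₂ P hP, mem_univ _⟩
    have h4 := card_le_card h3
    have h5 := card_union_add_card_inter (G.image (φ e₁)) (G.image (φ e₂))
    rw [hcon, card_empty, card_image_of_injOn (hinj _ h₁), card_image_of_injOn (hinj _ h₂)] at h5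
    rw [card_erase_of_mem (mem_univ _), card_univ, ← Nat.card_eq_fintype_card, hcE'] at h4
    omega
  obtain ⟨f, hf⟩ := hcap
  rw [mem_inter, mem_image, mem_image] at hf
  obtain ⟨⟨P, hP, h3⟩, Q, hQ, h4⟩ := hf
  have h5 := hord e₁ P hP
  have h6 := hord e₂ Q hQ
  rw [h3] at h5
  rw [h4] at h6
  exact h5.symm.trans h6

end Pool.Agent.V7H30.TP
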